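import Pool.Agent.Helper69.HA.Cer

/-!
# Project HA: facts on certificates
-/

set_option autoImplicit false

namespace Pool.Agent.Helper69.HA

universe u v

variable {I : Type u} {L : Type v} {lt : L → L → Prop} {e : L → ℕ → L → Prop}
  {D D' : I → L → I → Bool → Prop} {C C' : I → L → ℕ → ℕ → Prop}

/-- Monotonicity, with a set `T` of names which is closed under the indices. -/
theorem Cer.mono_on (T : Set I) (hT : ∀ j ∈ T, ∀ δ k v, D j δ k v → k ∈ T)
    (hD : ∀ j ∈ T, ∀ δ k v, D j δ k v → D' j δ k v)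
    (hC : ∀ k ∈ T, ∀ δ m x, C k δ m x → C' k δ m x) {j : I} {δ : L} {o : L ⊕ ℕ} {b : Bool}
    (hj : j ∈ T) (h : Cer lt e D C j δ o b) : Cer lt e D' C' j δ o b := by
  induction h with
  | self j δ => exact .self j δ
  | above j δ ξ h => exact .above j δ ξ h
  | step j δ ξ k v m γ x h1 h2 _ h4 _ h6 ih1 ih2 =>
    have hk := hT j hj _ _ _ h2
    exact .step j δ ξ k v m γ x h1 (hD j hj _ _ _ h2) (fun m' hm' γ' hγ' => ih1 m' hm' γ' hγ' hk)
      h4 (ih2 hk) (hC k hk _ _ _ h6)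
  | hit j δ l k v m γ x h1 h2 _ h4 _ h6 h7 ih1 ih2 =>
    have hk := hT j hj _ _ _ h1
    exact .hit j δ l k v m γ x (hD j hj _ _ _ h1) h2 (fun m' hm' γ' hγ' => ih1 m' hm' γ' hγ' hk)
      h4 (ih2 hk) (hC k hk _ _ _ h6) h7
  | low j δ l k v m γ x y h1 h2 _ h4 _ h6 h7 h8 ih1 ih2 =>
    have hk := hT j hj _ _ _ h1
    exact .low j δ l k v m γ x y (hD j hj _ _ _ h1) h2
      (fun m' hm' γ' hγ' => ih1 m' hm' γ' hγ' hk) h4 (ih2 hk) (hC k hk _ _ _ h6) h7
      (hC k hk _ _ _ h8)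
  | none j δ l k v y h1 _ h3 ih1 =>
    have hk := hT j hj _ _ _ h1
    exact .none j δ l k v y (hD j hj _ _ _ h1) (fun m' hm' γ' hγ' => ih1 m' hm' γ' hγ' hk)
      (hC k hk _ _ _ h3)

theorem Cer.mono (hD : ∀ j δ k v, D j δ k v → D' j δ k v)
    (hC : ∀ k δ m x, C k δ m x → C' k δ m x) {j : I} {δ : L} {o : L ⊕ ℕ} {b : Bool}
    (h : Cer lt e D C j δ o b) : Cer lt e D' C' j δ o b :=
  Cer.mono_on Set.univ (fun _ _ _ _ _ _ => Set.mem_univ _) (fun j _ => hD j) (fun k _ => hC k)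
    (Set.mem_univ j) h

/-- Certificates do not contradict each other. -/
theorem Cer.unique (hirr : ∀ x, ¬ lt x x) (hasymm : ∀ x y, lt x y → ¬ lt y x)
    (hD : ∀ j δ k v k' v', D j δ k v → D j δ k' v' → k = k' ∧ v = v')
    (hC : ∀ k δ m x y, C k δ m x → C k δ m y → x = y) {j : I} {δ : L} {o : L ⊕ ℕ} {b b' : Bool}
    (h : Cer lt e D C j δ o b) (h' : Cer lt e D C j δ o b') : b = b' := by
  induction h generalizing b' with
  | self j δ =>
    cases h' with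
    | self => rfl
    | above _ _ _ h => exact absurd h (hirr _)
    | step _ _ _ _ _ _ _ _ h => exact absurd h (hirr _)
  | above j δ ξ h =>
    cases h' with
    | self => exact absurd h (hirr _)
    | above => rfl
    | step _ _ _ _ _ _ _ _ h2 => exact absurd h2 (hasymm _ _ h)
  | step j δ ξ k v m γ x h1 h2 h3 h4 h5 h6 ih1 ih2 =>
    cases h' with
    | self => exact absurd h1 (hirr _)
    | above _ _ _ h => exact absurd h1 (hasymm _ _ h)
    | step _ _ _ k' v' m' γ' x' g1 g2 g3 g4 g5 g6 =>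
      obtain ⟨rfl, rfl⟩ := hD _ _ _ _ _ _ h2 g2
      rcases lt_trichotomy m m' with hm | rfl | hm
      · exact absurd (ih2 (g3 m hm _ h4)) (by simp)
      · rw [hC _ _ _ _ _ h6 g6]
      · exact absurd (ih1 m' hm _ g4 g5) (by simp)
  | hit j δ l k v m γ x h1 h2 h3 h4 h5 h6 h7 ih1 ih2 =>
    cases h' with
    | hit _ _ _ k' v' m' γ' x' g1 g2 g3 g4 g5 g6 g7 =>
      obtain ⟨rfl, rfl⟩ := hD _ _ _ _ _ _ h1 g1
      rcases lt_trichotomy m m' with hm | rfl | hm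
      · exact absurd (ih2 (g3 m hm _ h4)) (by simp)
      · rw [hC _ _ _ _ _ h6 g6]
      · exact absurd (ih1 m' hm _ g4 g5) (by simp)
    | low _ _ _ k' v' m' γ' x' y' g1 g2 g3 g4 g5 g6 g7 g8 =>
      obtain ⟨rfl, rfl⟩ := hD _ _ _ _ _ _ h1 g1
      rcases lt_trichotomy m m' with hm | rfl | hm
      · exact absurd (ih2 (g3 m hm _ h4)) (by simp)
      · obtain rfl := hC _ _ _ _ _ h6 g6
        omega
      · exact absurd (ih1 m' hm _ g4 g5) (by simp)
    | none _ _ _ k' v' y' g1 g2 g3 =>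
      obtain ⟨rfl, rfl⟩ := hD _ _ _ _ _ _ h1 g1
      exact absurd (ih2 (g2 m h2 _ h4)) (by simp)
  | low j δ l k v m γ x y h1 h2 h3 h4 h5 h6 h7 h8 ih1 ih2 =>
    cases h' with
    | hit _ _ _ k' v' m' γ' x' g1 g2 g3 g4 g5 g6 g7 =>
      obtain ⟨rfl, rfl⟩ := hD _ _ _ _ _ _ h1 g1
      rcases lt_trichotomy m m' with hm | rfl | hm
      · exact absurd (ih2 (g3 m hm _ h4)) (by simp)
      · obtain rfl := hC _ _ _ _ _ h6 g6
        omega
      · exact absurd (ih1 m' hm _ g4 g5) (by simp)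
    | low _ _ _ k' v' m' γ' x' y' g1 g2 g3 g4 g5 g6 g7 g8 =>
      obtain ⟨rfl, rfl⟩ := hD _ _ _ _ _ _ h1 g1
      rw [hC _ _ _ _ _ h8 g8]
    | none _ _ _ k' v' y' g1 g2 g3 =>
      obtain ⟨rfl, rfl⟩ := hD _ _ _ _ _ _ h1 g1
      rw [hC _ _ _ _ _ h8 g3]
  | none j δ l k v y h1 h2 h3 ih1 =>
    cases h' with
    | hit _ _ _ k' v' m' γ' x' g1 g2 g3 g4 g5 g6 g7 =>
      obtain ⟨rfl, rfl⟩ := hD _ _ _ _ _ _ h1 g1
      exact absurd (ih1 m' g2 _ g4 g5) (by simp)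
    | low _ _ _ k' v' m' γ' x' y' g1 g2 g3 g4 g5 g6 g7 g8 =>
      obtain ⟨rfl, rfl⟩ := hD _ _ _ _ _ _ h1 g1
      rw [hC _ _ _ _ _ h3 g8]
    | none _ _ _ k' v' y' g1 g2 g3 =>
      obtain ⟨rfl, rfl⟩ := hD _ _ _ _ _ _ h1 g1
      rw [hC _ _ _ _ _ h3 g3]

/-- The certificates of level `γ` for the names `j` and `k` are the same if the nodes are. -/
theorem Cer.change {j k : I} {γ : L} (hγ : ∀ k' v', D j γ k' v' → D k γ k' v')
    {o : L ⊕ ℕ} {b : Bool} (h : Cer lt e D C j γ o b) : Cer lt e D C k γ o b := by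
  cases h with
  | self => exact .self _ _
  | above _ _ _ h => exact .above _ _ _ h
  | step _ _ _ k v m γ x h1 h2 h3 h4 h5 h6 => exact .step _ _ _ k v m γ x h1 (hγ _ _ h2) h3 h4 h5 h6
  | hit _ _ _ k v m γ x h1 h2 h3 h4 h5 h6 h7 =>
    exact .hit _ _ _ k v m γ x (hγ _ _ h1) h2 h3 h4 h5 h6 h7
  | low _ _ _ k v m γ x y h1 h2 h3 h4 h5 h6 h7 h8 =>
    exact .low _ _ _ k v m γ x y (hγ _ _ h1) h2 h3 h4 h5 h6 h7 h8
  | none _ _ _ k v y h1 h2 h3 => exact .none _ _ _ k v y (hγ _ _ h1) h2 h3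

/-- In the real world there are certificates for everything. -/
theorem Cer.total (hwf : WellFounded lt) (htri : ∀ x y, lt x y ∨ x = y ∨ lt y x)
    (he : EnumL lt e) (hD : ∀ j δ, ∃ k v, D j δ k v) (hC : ∀ k δ m, ∃ x, C k δ m x)
    (δ : L) : ∀ (j : I) (o : L ⊕ ℕ), ∃ b, Cer lt e D C j δ o b := by
  induction δ using hwf.induction with
  | _ δ ih =>
    intro j o
    obtain ⟨k, v, hkv⟩ := hD j δ
    have hih : ∀ m γ, e δ m γ → ∃ b, Cer lt e D C k γ o b := fun m γ h => ih γ (he.below _ _ _ h) k o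
    cases o with
    | inl ξ =>
      rcases htri ξ δ with h | rfl | h
      · have hex : ∃ m, ∃ γ, e δ m γ ∧ Cer lt e D C k γ (.inl ξ) true := by
          obtain ⟨m, hm⟩ := he.onto _ _ h
          exact ⟨m, ξ, hm, .self _ _⟩
        classical
        obtain ⟨γ, h1, h2⟩ := Nat.find_spec hex
        obtain ⟨x, hx⟩ := hC k δ (Nat.find hex)
        refine ⟨_, .step j δ ξ k v (Nat.find hex) γ x h hkv ?_ h1 h2 hx⟩
        intro m' hm' γ' hγ'
        obtain ⟨b, hb⟩ := hih m' γ' hγ'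
        cases b with
        | false => exact hb
        | true => exact absurd ⟨γ', hγ', hb⟩ (Nat.find_min hex hm')
      · exact ⟨true, .self _ _⟩
      · exact ⟨false, .above _ _ _ h⟩
    | inr l =>
      by_cases hex : ∃ m, m ≤ l ∧ ∃ γ, e δ m γ ∧ Cer lt e D C k γ (.inr l) true
      · classical
        obtain ⟨h0, γ, h1, h2⟩ := Nat.find_spec hex
        obtain ⟨x, hx⟩ := hC k δ (Nat.find hex)
        obtain ⟨y, hy⟩ := hC k δ l
        have h3 : ∀ m', m' < Nat.find hex → ∀ γ', e δ m' γ' → Cer lt e D C k γ' (.inr l) false := by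
          intro m' hm' γ' hγ'
          obtain ⟨b, hb⟩ := hih m' γ' hγ'
          cases b with
          | false => exact hb
          | true => exact absurd ⟨hm'.le.trans h0, γ', hγ', hb⟩ (Nat.find_min hex hm')
        rcases le_or_gt (vF x) l with h | h
        · exact ⟨_, .hit j δ l k v _ γ x hkv h0 h3 h1 h2 hx h⟩
        · exact ⟨_, .low j δ l k v _ γ x y hkv h0 h3 h1 h2 hx h hy⟩
      · obtain ⟨y, hy⟩ := hC k δ l
        refine ⟨_, .none j δ l k v y hkv ?_ hy⟩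
        intro m' hm' γ' hγ'
        obtain ⟨b, hb⟩ := hih m' γ' hγ'
        cases b with
        | false => exact hb
        | true => exact absurd ⟨m', hm', γ', hγ', hb⟩ hex

end Pool.Agent.Helper69.HA
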