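import Pool.Agent.Helper46.HA.CFacts
import Pool.Agent.Helper7.HA.Eval

/-!
# HA-6: amalgamation
-/

set_option autoImplicit false
set_option linter.unusedSectionVars false

namespace Pool.Agent.Helper69.HA

open Set Pool.Agent.Helper33.HM Pool.Agent.Helper33.HMG Pool.Agent.Helper32.HB

universe u

section Amal

variable {I : Type u} [LinearOrder I] [WellFoundedLT I] {Ω : Type} [LinearOrder Ω]
  {e : Ω → ℕ → Ω → Prop} {code : I → Ω → Set (Cond I Ω)}

/-- The order at the place `i`. -/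
def AlAt (u p : PC e code) (i : I) : Prop :=
  (u.f i).Le (p.f i) ∧ ∀ ξ n δ, (u.f i).φ ξ = some n → (p.f i).φ ξ = none → (p.f i).F δ n →
    CE u i δ (.inl ξ) false

theorem al_res_le {u p : PC e code} {j : I} : u.res j ≤ p.res j ↔ ∀ i, i < j → AlAt u p i := by
  rw [PC.le_iff]
  constructor
  · intro h i hi
    have h1 := h i
    rw [PC.res_f_lt _ hi, PC.res_f_lt _ hi] at h1
    refine ⟨h1.1, fun ξ n δ a b c => ?_⟩
    refine CE_data (p := u.res j) ?_ ?_ (h1.2 ξ n δ a b c)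
    · rw [PC.res_res_le _ hi.le]
    · intro δ m x hx
      rwa [PC.res_f_lt _ hi] at hx
  · intro h i
    rcases lt_or_ge i j with hi | hi
    · rw [PC.res_f_lt _ hi, PC.res_f_lt _ hi]
      refine ⟨(h i hi).1, fun ξ n δ a b c => ?_⟩
      refine CE_data (p := u) ?_ ?_ ((h i hi).2 ξ n δ a b c)
      · rw [PC.res_res_le _ hi.le]
      · intro δ m x hx
        rwa [PC.res_f_lt _ hi]
    · have : (p.res j).f i = Dat.emp := PC.f_of_lt (PC.res_lt _ _) hi
      rw [this]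
      exact ⟨Dat.le_emp _, fun ξ n δ _ _ h => h.elim⟩

/-- The hypotheses. -/
structure AlH (A : Set I) (β : Ω) (p q : PC e code) : Prop where
  he : EnumL (fun x y => x < y) e
  good : Good e code A β
  nice : Nice p
  inq : In A β q
  le : q ≤ red A β p
  ag : ∀ i ∈ A, ∀ γ, γ < β → ∀ n, (p.f i).F γ n → ∀ k v, p ∈ Dv i γ k v → q ∈ Dv i γ k v

/-- The nodes with constraints. -/
def AlNd (A : Set I) (β : Ω) (p : PC e code) (j : I) (δ : Ω) (v : Bool) : Prop :=
  ∃ i ∈ A, ∃ n, (p.f i).F δ n ∧ β ≤ δ ∧ p ∈ Dv i δ j v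

variable {A : Set I} {β : Ω} {p q : PC e code}

theorem al_nd_unique (H : AlH A β p q) {j : I} {δ : Ω} {v v' : Bool} (h : AlNd A β p j δ v)
    (h' : AlNd A β p j δ v') : v = v' := by
  by_contra hne
  obtain ⟨i, hi, n, -, h1, h2⟩ := h
  obtain ⟨i', hi', n', -, -, h3⟩ := h'
  have : v' = !v := by cases v <;> cases v' <;> simp_all
  subst this
  exact absurd (H.good.dif i hi i' hi' p δ j v h2 h3) (not_lt.2 h1)

open Classical in
/-- The rule. -/
noncomputable def alR (A : Set I) (β : Ω) (p : PC e code) (l : ℕ) (j : I) (δ : Ω) (_ : ℕ) : ℕ :=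
  (exists_val (decide (AlNd A β p j δ true)) (!decide (AlNd A β p j δ true)) (l + 1)).choose

theorem al_rule (H : AlH A β p q) (l : ℕ) {j : I} {δ : Ω} {v : Bool} (h : AlNd A β p j δ v)
    (m : ℕ) : bE (alR A β p l j δ m) = v ∧ bH (alR A β p l j δ m) = !v ∧
      vF (alR A β p l j δ m) = l + 1 := by
  classical
  have hv : decide (AlNd A β p j δ true) = v := by
    cases v with
    | true => exact decide_eq_true h
    | false =>
      refine decide_eq_false fun h' => ?_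
      exact absurd (al_nd_unique H h h') (by simp)
  have := (exists_val (decide (AlNd A β p j δ true)) (!decide (AlNd A β p j δ true))
    (l + 1)).choose_spec
  unfold alR
  exact ⟨this.1.trans hv, this.2.1.trans (by rw [hv]), this.2.2⟩

/-- The constraints. -/
structure AlC (A : Set I) (β : Ω) (p q : PC e code) (i : I) (δ : Ω) (n : ℕ) (ξ : Ω) : Prop where
  mem : i ∈ A
  F : (p.f i).F δ n
  le : β ≤ δ
  φq : (q.f i).φ ξ = some n
  φp : (p.f i).φ ξ = none

/-- The additional requirement. -/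
structure AlX (A : Set I) (β : Ω) (p q : PC e code) (i₀ j₀ : I) (v₀ : Bool) (l : ℕ) : Prop where
  mem : i₀ ∈ A
  F : ∃ n, (p.f i₀).F β n
  D : p ∈ Dv i₀ β j₀ v₀
  c : (p.f j₀).c β l = none
  h0 : ∀ m x γ, (p.f j₀).c β m = some x → e β m γ → CE q i₀ γ (.inr l) false

theorem al_red_f {i : I} (hi : i ∈ A) : (red A β p).f i = cut β (p.f i) := if_pos hi

theorem al_red_emp {i : I} (hi : i ∉ A) : (red A β p).f i = Dat.emp := if_neg hi

theorem al_mem_of_ne {i : I} (H : AlH A β p q) (h : q.f i ≠ Dat.emp) : i ∈ A := H.inq.dom i h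

theorem al_mem_c {i : I} (H : AlH A β p q) {δ : Ω} {m x : ℕ} (h : (q.f i).c δ m = some x) :
    i ∈ A ∧ δ < β := by
  refine ⟨H.inq.dom i fun h0 => ?_, H.inq.c i δ m (by rw [h]; simp)⟩
  rw [h0] at h
  simp [Dat.emp] at h

theorem al_mem_φ {i : I} (H : AlH A β p q) {ξ : Ω} {n : ℕ} (h : (q.f i).φ ξ = some n) :
    i ∈ A ∧ ξ < β := by
  refine ⟨H.inq.dom i fun h0 => ?_, H.inq.φ i ξ (by rw [h]; simp)⟩
  rw [h0] at h
  simp [Dat.emp] at h

theorem al_mem_F {i : I} (H : AlH A β p q) {δ : Ω} {n : ℕ} (h : (q.f i).F δ n) :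
    i ∈ A ∧ δ < β := by
  refine ⟨H.inq.dom i fun h0 => ?_, H.inq.F i δ n h⟩
  rw [h0] at h
  exact h

theorem al_c {i : I} (H : AlH A β p q) {δ : Ω} {m x y : ℕ} (h : (q.f i).c δ m = some x)
    (h' : (p.f i).c δ m = some y) : y = x := by
  obtain ⟨hi, hδ⟩ := al_mem_c H h
  have h1 := (PC.le_data H.le i).c δ m y (by rw [al_red_f hi]; simp only [cut, if_pos hδ]; exact h')
  exact Option.some.inj (h1.symm.trans h)

theorem al_φ_lt {i : I} (H : AlH A β p q) (hi : i ∈ A) {ξ : Ω} {y : ℕ} (hξ : ξ < β)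
    (h' : (p.f i).φ ξ = some y) : (q.f i).φ ξ = some y :=
  (PC.le_data H.le i).φ ξ y (by rw [al_red_f hi]; simp only [cut, if_pos hξ]; exact h')

theorem al_F_lt {i : I} (H : AlH A β p q) (hi : i ∈ A) {δ : Ω} {n : ℕ} (hδ : δ < β)
    (h' : (p.f i).F δ n) : (q.f i).F δ n :=
  (PC.le_data H.le i).F δ n (by rw [al_red_f hi]; exact ⟨hδ, h'⟩)

/-- A new element of `q` respects the promises of `p` below `β`. -/
theorem al_new (H : AlH A β p q) {i : I} {δ ξ : Ω} {n : ℕ} (hδ : δ < β)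
    (hq : (q.f i).φ ξ = some n) (hp : (p.f i).φ ξ = none) (hF : (p.f i).F δ n) :
    CE q i δ (.inl ξ) false := by
  obtain ⟨hi, hξ⟩ := al_mem_φ H hq
  refine ((PC.le_iff.1 H.le) i).2 ξ n δ hq ?_ ?_
  · rw [al_red_f hi]
    simp only [cut, if_pos hξ]
    exact hp
  · rw [al_red_f hi]
    exact ⟨hδ, hF⟩

/-- `o` has the value `false` at the level `γ < β` of the branch `j`, from `q` at the place `i`. -/
theorem al_transfer (H : AlH A β p q) {i j : I} {δ γ : Ω} {v : Bool} {n : ℕ} (hi : i ∈ A)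
    (hD : p ∈ Dv i δ j v) (hγ : γ < δ) (hγβ : γ < β) (hF : (p.f i).F γ n) {o : Ω ⊕ ℕ}
    (hq : CE q i γ o false) {w : PC e code} (hwp : w.res j ≤ p.res j) (hwq : w.res j ≤ q.res j)
    (hwc : ∀ δ m x, (q.f j).c δ m = some x → (w.f j).c δ m = some x) :
    CE w j γ o false := by
  obtain ⟨k', v', hk⟩ := H.nice.n1 i γ n hF
  have hk' : p ∈ Dv j γ k' v' := (Dv_coh hD hγ).1 hk
  have hqk : q ∈ Dv i γ k' v' := H.ag i hi γ hγβ n hF k' v' hk
  have hkj : k' ≤ j := (mem_Dv.1 hk').1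
  have hwk : w ∈ Dv j γ k' v' := by
    rw [← mem_res_iff (Dv_mem j γ k' v')]
    exact RO.mem_lower hwp ((mem_res_iff (Dv_mem j γ k' v')).2 hk')
  rw [CE_iff] at hq
  rcases hq with ⟨-, h⟩ | ⟨ξ, rfl, h, -⟩ | ⟨k, v1, a, h1, h2, h3⟩
  · exact absurd h (by simp)
  · exact Cer.above _ _ _ h
  · obtain ⟨rfl, rfl⟩ := Dv_fun hqk h1
    rw [CE_iff]
    refine Or.inr (Or.inr ⟨k', v', a, hwk, ?_, h3⟩)
    refine Nod_data ?_ ?_ h2
    · have := PC.res_mono hwq k'
      rwa [PC.res_res_le _ hkj, PC.res_res_le _ hkj] at this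
    · intro δ m x hx
      rcases hkj.lt_or_eq with h4 | rfl
      · have h5 := (PC.le_data hwq k').c δ m x (by rw [PC.res_f_lt _ h4]; exact hx)
        rwa [PC.res_f_lt _ h4] at h5
      · exact hwc δ m x hx

/-- Finite iteration. -/
theorem al_finite {α : Type*} {ρ : Ω → ℕ → ℕ} {j : I} {T : Set α} (hT : T.Finite)
    {Q : α → PC e code → Prop} (hQ : ∀ a w w', Q a w → Ext ρ j w' w → Q a w') {w₀ : PC e code}
    (h : ∀ a ∈ T, ∀ w, Ext ρ j w w₀ → ∃ w', Ext ρ j w' w ∧ Q a w') {w : PC e code}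
    (hw : Ext ρ j w w₀) : ∃ w', Ext ρ j w' w ∧ ∀ a ∈ T, Q a w' := by
  induction T, hT using Set.Finite.induction_on with
  | empty => exact ⟨w, Ext.refl _ _ _, by simp⟩
  | @insert a s _ _ ih =>
    obtain ⟨w1, h1, h2⟩ := ih fun a ha => h a (mem_insert_of_mem _ ha)
    obtain ⟨w2, h3, h4⟩ := h a (mem_insert _ _) w1 (Ext.trans h1 hw)
    refine ⟨w2, Ext.trans h3 h1, ?_⟩
    intro b hb
    rcases hb with rfl | hb
    · exact h4
    · exact hQ _ _ _ (h2 b hb) h3

/-- The search for the first element. -/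
theorem al_first [WellFoundedLT Ω] (he : EnumL (fun x y => x < y) e) {ρ : Ω → ℕ → ℕ} {j : I}
    (δ : Ω) (o : Ω ⊕ ℕ) (w : PC e code) (M : ℕ) :
    ∃ w', Ext ρ j w' w ∧ ((∃ m γ, m < M ∧ e δ m γ ∧ CE w' j γ o true ∧
      ∀ m', m' < m → ∀ γ', e δ m' γ' → CE w' j γ' o false) ∨
      ∀ m, m < M → ∀ γ, e δ m γ → CE w' j γ o false) := by
  induction M with
  | zero => exact ⟨w, Ext.refl _ _ _, Or.inr fun m hm => absurd hm (Nat.not_lt_zero _)⟩
  | succ M ih =>
    obtain ⟨w1, h1, h2 | h2⟩ := ih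
    · obtain ⟨m, γ, h3, h4⟩ := h2
      exact ⟨w1, h1, Or.inl ⟨m, γ, h3.trans (Nat.lt_succ_self _), h4⟩⟩
    · by_cases hex : ∃ γ, e δ M γ
      · obtain ⟨γ, hγ⟩ := hex
        obtain ⟨w2, h3, b, h4⟩ := exists_eval he ρ j γ o w1
        cases b with
        | true =>
          exact ⟨w2, Ext.trans h3 h1, Or.inl ⟨M, γ, Nat.lt_succ_self _, hγ, h4,
            fun m' hm' γ' hγ' => CE_mono h3.le (h2 m' hm' γ' hγ')⟩⟩
        | false =>
          refine ⟨w2, Ext.trans h3 h1, Or.inr fun m' hm' γ' hγ' => ?_⟩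
          rcases Nat.lt_succ_iff_lt_or_eq.1 hm' with h5 | rfl
          · exact CE_mono h3.le (h2 m' h5 γ' hγ')
          · rw [he.func _ _ _ _ hγ' hγ]
            exact h4
      · refine ⟨w1, h1, Or.inr fun m' hm' γ' hγ' => ?_⟩
        rcases Nat.lt_succ_iff_lt_or_eq.1 hm' with h5 | rfl
        · exact h2 m' h5 γ' hγ'
        · exact absurd ⟨γ', hγ'⟩ hex

/-- The good conditions at the places in `J`. -/
structure AlB (A : Set I) (β : Ω) (p q : PC e code) (i₀ j₀ : I) (v₀ : Bool) (l : ℕ) (J : Set I)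
    (u : PC e code) : Prop where
  lp : ∀ i ∈ J, AlAt u p i
  lq : ∀ i ∈ J, AlAt u q i
  con : ∀ i δ n ξ, AlC A β p q i δ n ξ → ∀ j ∈ J, ∀ v, p ∈ Dv i δ j v → Nod u j δ (.inl ξ) v
  ext : AlX A β p q i₀ j₀ v₀ l → j₀ ∈ J → Nod u j₀ β (.inr l) (!v₀)

/-- Admissible conditions for the step at the place `j`. -/
structure AlW (A : Set I) (β : Ω) (p q : PC e code) (l : ℕ) (j : I) (u w : PC e code) : Prop where
  lu : w.res j ≤ u.res j
  lp : w.res j ≤ p.res j
  lq : w.res j ≤ q.res j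
  cp : ∀ δ m x, (p.f j).c δ m = some x → (w.f j).c δ m = some x
  cq : ∀ δ m x, (q.f j).c δ m = some x → (w.f j).c δ m = some x
  c : ∀ δ m x, (w.f j).c δ m = some x → (p.f j).c δ m = some x ∨ (q.f j).c δ m = some x ∨
    x = alR A β p l j δ m

theorem AlW.mono {l : ℕ} {j : I} {u w w' : PC e code} (h : AlW A β p q l j u w)
    (h' : Ext (alR A β p l j) j w' w) : AlW A β p q l j u w' where
  lu := (PC.res_mono h'.le j).trans h.lu
  lp := (PC.res_mono h'.le j).trans h.lp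
  lq := (PC.res_mono h'.le j).trans h.lq
  cp δ m x hx := (PC.le_data h'.le j).c _ _ _ (h.cp δ m x hx)
  cq δ m x hx := (PC.le_data h'.le j).c _ _ _ (h.cq δ m x hx)
  c δ m x hx := by
    rcases h'.c δ m x hx with h1 | h1
    · exact h.c δ m x h1
    · exact Or.inr (Or.inr h1)

theorem al_val (H : AlH A β p q) {l : ℕ} {j : I} {u w : PC e code} (hW : AlW A β p q l j u w)
    {δ : Ω} (hδ : β ≤ δ) {m : ℕ} (hp : (p.f j).c δ m = none) :
    ∃ w', Ext (alR A β p l j) j w' w ∧ (w'.f j).c δ m = some (alR A β p l j δ m) := by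
  cases hw : (w.f j).c δ m with
  | none =>
    obtain ⟨w', h1, h2, -⟩ := Ext.add (alR A β p l j) j w δ m hw
    exact ⟨w', h1, h2⟩
  | some x =>
    refine ⟨w, Ext.refl _ _ _, ?_⟩
    rw [hw]
    rcases hW.c δ m x hw with h1 | h1 | h1
    · rw [hp] at h1
      exact absurd h1 (by simp)
    · exact absurd (al_mem_c H h1).2 (not_lt.2 hδ)
    · rw [h1]

theorem al_dv {l : ℕ} {j : I} {u w : PC e code} (hW : AlW A β p q l j u w) {k k' : I} (hk : k ≤ j)
    {γ : Ω} {v : Bool} (h : p ∈ Dv k γ k' v) : w ∈ Dv k γ k' v := by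
  rw [← mem_res_iff (S_mono hk (Dv_mem k γ k' v))]
  exact RO.mem_lower hW.lp ((mem_res_iff (S_mono hk (Dv_mem k γ k' v))).2 h)

theorem al_X [WellFoundedLT Ω] (H : AlH A β p q) {l : ℕ} {j : I} {u w₀ : PC e code}
    (hW₀ : AlW A β p q l j u w₀)
    (hcon : ∀ i δ n ξ, AlC A β p q i δ n ξ → ∀ k, k < j → ∀ v, p ∈ Dv i δ k v →
      Nod u k δ (.inl ξ) v) (δ : Ω) :
    ∀ i n ξ v w, Ext (alR A β p l j) j w w₀ → AlC A β p q i δ n ξ → p ∈ Dv i δ j v →
      ∃ w', Ext (alR A β p l j) j w' w ∧ Nod w' j δ (.inl ξ) v := by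
  induction δ using WellFoundedLT.induction with
  | ind δ ih =>
    intro i n ξ v w hw hC hD
    obtain ⟨hi, hξβ⟩ := al_mem_φ H hC.φq
    have hξ : ξ < δ := hξβ.trans_le hC.le
    have hT : {m | (p.f j).c δ m ≠ none}.Finite := by
      refine ((p.f j).finc.preimage (f := fun m : ℕ => (δ, m)) ?_).subset fun m hm => hm
      intro m _ m' _ h
      exact (Prod.mk.inj h).2
    have hN2 : ∀ m x γ, (p.f j).c δ m = some x → e δ m γ → (p.f i).F γ n :=
      fun m x γ h1 h2 => H.nice.n2 i δ n j v m x γ hC.F hD h1 h2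
    obtain ⟨w1, hw1, hQ⟩ := al_finite (w₀ := w₀) hT
      (Q := fun m w => ∀ γ v', e δ m γ → β ≤ γ → p ∈ Dv i γ j v' → Nod w j γ (.inl ξ) v')
      (fun m w w' h1 h2 γ v' h3 h4 h5 => Nod_mono h2.le (h1 γ v' h3 h4 h5)) (by
        intro m hm w hw
        by_cases hex : ∃ γ v', e δ m γ ∧ β ≤ γ ∧ p ∈ Dv i γ j v'
        · obtain ⟨γ, v', h1, h2, h3⟩ := hex
          obtain ⟨x, hx⟩ := Option.ne_none_iff_exists'.1 hm
          obtain ⟨w', h4, h5⟩ := ih γ (H.he.below _ _ _ h1) i n ξ v' w hw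
            ⟨hC.mem, hN2 m x γ hx h1, h2, hC.φq, hC.φp⟩ h3
          refine ⟨w', h4, fun γ' v'' h6 _ h7 => ?_⟩
          obtain rfl := H.he.func _ _ _ _ h6 h1
          obtain ⟨-, rfl⟩ := Dv_fun h7 h3
          exact h5
        · exact ⟨w, Ext.refl _ _ _, fun γ v' h1 h2 h3 => absurd ⟨γ, v', h1, h2, h3⟩ hex⟩) hw
    have hZ : ∀ w2, Ext (alR A β p l j) j w2 w1 → ∀ m x γ, (p.f j).c δ m = some x → e δ m γ →
        CE w2 j γ (.inl ξ) false := by
      intro w2 hw2 m x γ hx hγ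
      have hF := hN2 m x γ hx hγ
      have hγδ := H.he.below _ _ _ hγ
      have hW2 : AlW A β p q l j u w2 := hW₀.mono (Ext.trans hw2 (Ext.trans hw1 hw))
      rcases lt_or_ge γ β with hγβ | hγβ
      · exact al_transfer H hi hD hγδ hγβ hF (al_new H hγβ hC.φq hC.φp hF) hW2.lp hW2.lq hW2.cq
      · obtain ⟨k', v', hk⟩ := H.nice.n1 i γ n hF
        have hk' : p ∈ Dv j γ k' v' := (Dv_coh hD hγδ).1 hk
        have hkj : k' ≤ j := (mem_Dv.1 hk').1
        have hC' : AlC A β p q i γ n ξ := ⟨hC.mem, hF, hγβ, hC.φq, hC.φp⟩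
        rw [CE_iff]
        refine Or.inr (Or.inr ⟨k', v', v', al_dv hW2 le_rfl hk', ?_, by simp⟩)
        rcases hkj.lt_or_eq with h4 | rfl
        · refine Nod_data ?_ ?_ (hcon i γ n ξ hC' k' h4 v' hk)
          · have := PC.res_mono hW2.lu k'
            rwa [PC.res_res_le _ hkj, PC.res_res_le _ hkj] at this
          · intro δ' m' x' hx'
            have h5 := (PC.le_data hW2.lu k').c δ' m' x' (by rw [PC.res_f_lt _ h4]; exact hx')
            rwa [PC.res_f_lt _ h4] at h5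
        · exact Nod_mono hw2.le (hQ m (by simp [hx]) γ v' hγ hγβ hk)
    obtain ⟨m₁, hm₁⟩ := H.he.onto ξ δ hξ
    obtain ⟨w2, hw2, h1 | h1⟩ := al_first H.he δ (.inl ξ) w1 (m₁ + 1)
    · obtain ⟨m, γ, -, h2, h3, h4⟩ := h1
      have hp : (p.f j).c δ m = none := by
        by_contra hne
        obtain ⟨x, hx⟩ := Option.ne_none_iff_exists'.1 hne
        exact absurd (CE_unique h3 (hZ w2 hw2 m x γ hx h2)) (by simp)
      obtain ⟨w3, hw3, h5⟩ := al_val H (hW₀.mono (Ext.trans hw2 (Ext.trans hw1 hw))) hC.le hp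
      refine ⟨w3, Ext.trans hw3 (Ext.trans hw2 hw1), hξ, m, γ, alR A β p l j δ m,
        fun m' hm' γ' hγ' => CE_mono hw3.le (h4 m' hm' γ' hγ'), h2, CE_mono hw3.le h3, h5, ?_⟩
      exact (al_rule H l ⟨i, hi, n, hC.F, hC.le, hD⟩ m).1.symm
    · exact absurd (CE_unique (h1 m₁ (Nat.lt_succ_self _) ξ hm₁) (Cer.self _ _)) (by simp)

theorem al_E [WellFoundedLT Ω] (H : AlH A β p q) {l : ℕ} {j i₀ : I} {v₀ : Bool}
    {u w : PC e code} (hW : AlW A β p q l j u w) (hX : AlX A β p q i₀ j v₀ l) :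
    ∃ w', Ext (alR A β p l j) j w' w ∧ Nod w' j β (.inr l) (!v₀) := by
  obtain ⟨n, hF⟩ := hX.F
  have hZ : ∀ w2, Ext (alR A β p l j) j w2 w → ∀ m x γ, (p.f j).c β m = some x → e β m γ →
      CE w2 j γ (.inr l) false := by
    intro w2 hw2 m x γ hx hγ
    have hFγ := H.nice.n2 i₀ β n j v₀ m x γ hF hX.D hx hγ
    have hγβ := H.he.below _ _ _ hγ
    have hW2 := hW.mono hw2
    exact al_transfer H hX.mem hX.D hγβ hγβ hFγ (hX.h0 m x γ hx hγ) hW2.lp hW2.lq hW2.cq
  have hR := al_rule H l (j := j) (δ := β) (v := v₀) ⟨i₀, hX.mem, n, hF, le_rfl, hX.D⟩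
  obtain ⟨w2, hw2, h1 | h1⟩ := al_first H.he (ρ := alR A β p l j) (j := j) β (.inr l) w (l + 1)
  · obtain ⟨m, γ, h0, h2, h3, h4⟩ := h1
    have hp : (p.f j).c β m = none := by
      by_contra hne
      obtain ⟨x, hx⟩ := Option.ne_none_iff_exists'.1 hne
      exact absurd (CE_unique h3 (hZ w2 hw2 m x γ hx h2)) (by simp)
    obtain ⟨w3, hw3, h5⟩ := al_val H (hW.mono hw2) le_rfl hp
    obtain ⟨w4, hw4, h6⟩ := al_val H (hW.mono (Ext.trans hw3 hw2)) le_rfl hX.c
    have hw5 := Ext.trans hw4 hw3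
    refine ⟨w4, Ext.trans hw5 hw2, Or.inr (Or.inl ⟨m, γ, alR A β p l j β m, alR A β p l j β l,
      Nat.lt_succ_iff.1 h0, fun m' hm' γ' hγ' => CE_mono hw5.le (h4 m' hm' γ' hγ'), h2,
      CE_mono hw5.le h3, (PC.le_data hw4.le j).c _ _ _ h5, ?_, h6, ?_⟩)⟩
    · rw [(hR m).2.2]; exact Nat.lt_succ_self _
    · exact (hR l).2.1.symm
  · obtain ⟨w4, hw4, h6⟩ := al_val H (hW.mono hw2) le_rfl hX.c
    refine ⟨w4, Ext.trans hw4 hw2, Or.inr (Or.inr ⟨alR A β p l j β l,
      fun m' hm' γ' hγ' => CE_mono hw4.le (h1 m' (Nat.lt_succ_iff.2 hm') γ' hγ'), h6, ?_⟩)⟩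
    exact (hR l).2.1.symm

/-- The values of the nodes of `p` and `q` at the place `j`. -/
def alC0 (p q : PC e code) (j : I) : Dat Ω where
  c δ m := (p.f j).c δ m <|> (q.f j).c δ m
  φ _ := none
  F _ _ := False
  finc := by
    refine ((p.f j).finc.union (q.f j).finc).subset fun z hz => ?_
    cases h : (p.f j).c z.1 z.2 with
    | none =>
      right
      change ((p.f j).c z.1 z.2 <|> (q.f j).c z.1 z.2) ≠ none at hz
      rw [h] at hz
      exact hz
    | some x =>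
      left
      change (p.f j).c z.1 z.2 ≠ none
      rw [h]
      simp
  finφ := by simp
  finF := by simp

/-- The union of the other data of `p` and `q` at the place `j`. -/
def alU (p q : PC e code) (j : I) (x : Dat Ω) : Dat Ω where
  c := x.c
  φ ξ := (p.f j).φ ξ <|> (q.f j).φ ξ
  F δ n := (p.f j).F δ n ∨ (q.f j).F δ n
  finc := x.finc
  finφ := by
    refine ((p.f j).finφ.union (q.f j).finφ).subset fun z hz => ?_
    cases h : (p.f j).φ z with
    | none =>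
      right
      change ((p.f j).φ z <|> (q.f j).φ z) ≠ none at hz
      rw [h] at hz
      exact hz
    | some x =>
      left
      change (p.f j).φ z ≠ none
      rw [h]
      simp
  finF := ((p.f j).finF.union (q.f j).finF).subset fun z hz => hz

theorem al_con_finite (_ : AlH A β p q) :
    {z : I × Ω × ℕ × Ω | AlC A β p q z.1 z.2.1 z.2.2.1 z.2.2.2}.Finite := by
  have h1 : {i | q.f i ≠ Dat.emp}.Finite := q.c.fin
  refine (h1.biUnion (t := fun i => (fun y : (Ω × ℕ) × Ω => (i, y.1.1, y.1.2, y.2)) ''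
    ({z : Ω × ℕ | (p.f i).F z.1 z.2} ×ˢ {z : Ω | (q.f i).φ z ≠ none})) fun i _ =>
      (((p.f i).finF).prod (q.f i).finφ).image _).subset ?_
  rintro ⟨i, δ, n, ξ⟩ h
  have h' : AlC A β p q i δ n ξ := h
  refine mem_biUnion (x := i) ?_ ⟨((δ, n), ξ), ⟨h'.F, ?_⟩, rfl⟩
  · intro h0
    have := h'.φq
    rw [h0] at this
    simp [Dat.emp] at this
  · change (q.f i).φ ξ ≠ none
    rw [h'.φq]
    simp

theorem al_step [WellFoundedLT Ω] (H : AlH A β p q) {i₀ j₀ : I} {v₀ : Bool} {l : ℕ} {j : I}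
    {u : PC e code} (hu : AlB A β p q i₀ j₀ v₀ l (Iio j) u) :
    ∃ u', AlB A β p q i₀ j₀ v₀ l (Iic j) u' := by
  set w₀ : PC e code := PC.put u j (alC0 p q j) with hw₀
  have hw₀f : w₀.f j = alC0 p q j := if_pos rfl
  have hres : w₀.res j = u.res j := PC.put_res _ _ _ le_rfl
  have hup : u.res j ≤ p.res j := al_res_le.2 hu.lp
  have huq : u.res j ≤ q.res j := al_res_le.2 hu.lq
  have hcp : ∀ δ m x, (p.f j).c δ m = some x → (w₀.f j).c δ m = some x := by
    intro δ m x hx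
    rw [hw₀f]
    change ((p.f j).c δ m <|> (q.f j).c δ m) = some x
    rw [hx]
    rfl
  have hW₀ : AlW A β p q l j u w₀ := by
    refine ⟨by rw [hres], by rw [hres]; exact hup, by rw [hres]; exact huq, hcp, ?_, ?_⟩
    · intro δ m x hx
      cases hp : (p.f j).c δ m with
      | some y =>
        have := al_c H hx hp
        rw [← this]
        exact hcp _ _ _ hp
      | none =>
        rw [hw₀f]
        change ((p.f j).c δ m <|> (q.f j).c δ m) = some x
        rw [hp]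
        exact hx
    · intro δ m x hx
      rw [hw₀f] at hx
      change ((p.f j).c δ m <|> (q.f j).c δ m) = some x at hx
      cases hp : (p.f j).c δ m with
      | some y =>
        rw [hp] at hx
        exact Or.inl hx
      | none =>
        rw [hp] at hx
        exact Or.inr (Or.inl hx)
  have hcon : ∀ i δ n ξ, AlC A β p q i δ n ξ → ∀ k, k < j → ∀ v, p ∈ Dv i δ k v →
      Nod u k δ (.inl ξ) v := fun i δ n ξ h k hk => hu.con i δ n ξ h k hk
  obtain ⟨w1, hw1, hQ⟩ := al_finite (w₀ := w₀) (al_con_finite H)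
    (Q := fun z w => ∀ v, p ∈ Dv z.1 z.2.1 j v → Nod w j z.2.1 (.inl z.2.2.2) v)
    (fun z w w' h1 h2 v h3 => Nod_mono h2.le (h1 v h3)) (by
      rintro ⟨i, δ, n, ξ⟩ hz w hw
      by_cases hex : ∃ v, p ∈ Dv i δ j v
      · obtain ⟨v, hv⟩ := hex
        obtain ⟨w', h1, h2⟩ := al_X H hW₀ hcon δ i n ξ v w hw hz hv
        refine ⟨w', h1, fun v' hv' => ?_⟩
        obtain ⟨-, rfl⟩ := Dv_fun hv hv'
        exact h2
      · exact ⟨w, Ext.refl _ _ _, fun v hv => absurd ⟨v, hv⟩ hex⟩)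
    (Ext.refl (alR A β p l j) j w₀)
  obtain ⟨w2, hw2, hE⟩ : ∃ w2, Ext (alR A β p l j) j w2 w1 ∧
      (AlX A β p q i₀ j₀ v₀ l → j₀ = j → Nod w2 j₀ β (.inr l) (!v₀)) := by
    by_cases hex : AlX A β p q i₀ j₀ v₀ l ∧ j₀ = j
    · obtain ⟨hX, rfl⟩ := hex
      obtain ⟨w', h1, h2⟩ := al_E H (hW₀.mono hw1) hX
      exact ⟨w', h1, fun _ _ => h2⟩
    · exact ⟨w1, Ext.refl _ _ _, fun h1 h2 => absurd ⟨h1, h2⟩ hex⟩
  have hW2 : AlW A β p q l j u w2 := hW₀.mono (Ext.trans hw2 hw1)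
  set u' : PC e code := PC.put w2 j (alU p q j (w2.f j)) with hu'
  have hu'f : u'.f j = alU p q j (w2.f j) := if_pos rfl
  have hu'r : ∀ k, k ≤ j → u'.res k = w2.res k := fun k hk => PC.put_res _ _ _ hk
  have hu'c : ∀ k, (u'.f k).c = (w2.f k).c := by
    intro k
    by_cases hk : k = j
    · subst hk
      rw [hu'f]
      rfl
    · have : u'.f k = w2.f k := if_neg hk
      rw [this]
  -- from `w2` to `u'`
  have hN : ∀ k, k ≤ j → ∀ {δ : Ω} {o : Ω ⊕ ℕ} {a : Bool}, Nod w2 k δ o a → Nod u' k δ o a :=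
    fun k hk δ o a h => Nod_data (by rw [hu'r k hk]) (fun δ m x hx => by rw [hu'c]; exact hx) h
  have hNu : ∀ k, k < j → ∀ {δ : Ω} {o : Ω ⊕ ℕ} {a : Bool}, Nod u k δ o a → Nod u' k δ o a := by
    intro k hk δ o a h
    refine hN k hk.le (Nod_data ?_ ?_ h)
    · have := PC.res_mono hW2.lu k
      rwa [PC.res_res_le _ hk.le, PC.res_res_le _ hk.le] at this
    · intro δ' m' x' hx'
      have h5 := (PC.le_data hW2.lu k).c δ' m' x' (by rw [PC.res_f_lt _ hk]; exact hx')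
      rwa [PC.res_f_lt _ hk] at h5
  have hconj : ∀ i δ n ξ, AlC A β p q i δ n ξ → ∀ k, k ≤ j → ∀ v, p ∈ Dv i δ k v →
      Nod u' k δ (.inl ξ) v := by
    intro i δ n ξ hC k hk v hv
    rcases hk.lt_or_eq with h1 | rfl
    · exact hNu k h1 (hcon i δ n ξ hC k h1 v hv)
    · exact hN k le_rfl (Nod_mono hw2.le (hQ (i, δ, n, ξ) hC v hv))
  have hDv : ∀ k, k ≤ j → ∀ {γ : Ω} {k' : I} {v : Bool}, p ∈ Dv k γ k' v → u' ∈ Dv k γ k' v := by
    intro k hk γ k' v h
    have h1 := al_dv hW2 hk h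
    rw [← mem_res_iff (S_mono hk (Dv_mem k γ k' v))] at h1 ⊢
    rw [hu'r j le_rfl]
    exact h1
  refine ⟨u', ?_, ?_, fun i δ n ξ hC k hk => hconj i δ n ξ hC k hk, ?_⟩
  · intro i hi
    rcases (show i ≤ j from hi).lt_or_eq with h1 | rfl
    · refine (al_res_le (u := u') (p := p) (j := j)).1 ?_ i h1
      rw [hu'r j le_rfl]
      exact hW2.lp
    · refine ⟨⟨?_, ?_, ?_⟩, ?_⟩
      · intro δ m x hx
        rw [hu'c]
        exact hW2.cp δ m x hx
      · intro ξ n hx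
        rw [hu'f]
        change ((p.f i).φ ξ <|> (q.f i).φ ξ) = some n
        rw [hx]
        rfl
      · intro δ n hx
        rw [hu'f]
        exact Or.inl hx
      · intro ξ n δ h1 h2 h3
        rw [hu'f] at h1
        change ((p.f i).φ ξ <|> (q.f i).φ ξ) = some n at h1
        rw [h2] at h1
        have h1' : (q.f i).φ ξ = some n := h1
        rcases lt_or_ge δ β with hδ | hδ
        · refine CE_data (p := q) ?_ ?_ (al_new H hδ h1' h2 h3)
          · rw [hu'r i le_rfl]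
            exact hW2.lq
          · intro δ' m' x' hx'
            rw [hu'c]
            exact hW2.cq _ _ _ hx'
        · obtain ⟨k, v, hk⟩ := H.nice.n1 i δ n h3
          have hki : k ≤ i := (mem_Dv.1 hk).1
          rw [CE_iff]
          refine Or.inr (Or.inr ⟨k, v, v, hDv i le_rfl hk, ?_, by simp⟩)
          exact hconj i δ n ξ ⟨(al_mem_φ H h1').1, h3, hδ, h1', h2⟩ k hki v hk
  · intro i hi
    rcases (show i ≤ j from hi).lt_or_eq with h1 | rfl
    · refine (al_res_le (u := u') (p := q) (j := j)).1 ?_ i h1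
      rw [hu'r j le_rfl]
      exact hW2.lq
    · refine ⟨⟨?_, ?_, ?_⟩, ?_⟩
      · intro δ m x hx
        rw [hu'c]
        exact hW2.cq δ m x hx
      · intro ξ n hx
        rw [hu'f]
        change ((p.f i).φ ξ <|> (q.f i).φ ξ) = some n
        cases hp : (p.f i).φ ξ with
        | some y =>
          obtain ⟨h1, h2⟩ := al_mem_φ H hx
          have h3 := al_φ_lt H h1 h2 hp
          rw [hx] at h3
          exact h3.symm
        | none => exact hx
      · intro δ n hx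
        rw [hu'f]
        exact Or.inr hx
      · intro ξ n δ h1 h2 h3
        rw [hu'f] at h1
        change ((p.f i).φ ξ <|> (q.f i).φ ξ) = some n at h1
        rw [h2] at h1
        obtain ⟨hi', hδ⟩ := al_mem_F H h3
        cases hp : (p.f i).φ ξ with
        | none =>
          rw [hp] at h1
          exact absurd h1 (by simp)
        | some y =>
          rcases lt_or_ge ξ β with hξ | hξ
          · have := al_φ_lt H hi' hξ hp
            rw [h2] at this
            exact absurd this (by simp)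
          · exact Cer.above _ _ _ (hδ.trans_le hξ)
  · intro hX hj
    rcases (show j₀ ≤ j from hj).lt_or_eq with h1 | h1
    · exact hNu j₀ h1 (hu.ext hX h1)
    · exact hN j₀ h1.le (hE hX h1)

/-- The relevant places. -/
def AlRel (p q : PC e code) (j₀ : I) : Set I :=
  {k | p.f k ≠ Dat.emp} ∪ {k | q.f k ≠ Dat.emp} ∪ {j₀} ∪
    {k | ∃ i δ n v, (p.f i).F δ n ∧ p ∈ Dv i δ k v}

theorem al_rel_finite (p q : PC e code) (j₀ : I) : (AlRel p q j₀).Finite := by
  classical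
  refine ((p.c.fin.union q.c.fin).union (finite_singleton j₀)).union ?_
  have h1 : {i | p.f i ≠ Dat.emp}.Finite := p.c.fin
  let G : I × Ω → I := fun z => if h : ∃ k, ∃ v, p ∈ Dv z.1 z.2 k v then h.choose else j₀
  refine (h1.biUnion (t := fun i => (fun y : Ω × ℕ => G (i, y.1)) ''
    {z : Ω × ℕ | (p.f i).F z.1 z.2}) fun i _ => ((p.f i).finF).image _).subset ?_
  rintro k ⟨i, δ, n, v, h2, h3⟩
  refine mem_biUnion (x := i) ?_ ⟨(δ, n), h2, ?_⟩
  · intro h0
    have : (p.f i) = Dat.emp := h0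
    rw [this] at h2
    exact h2
  · have h : ∃ k, ∃ v, p ∈ Dv i δ k v := ⟨k, v, h3⟩
    have h4 : G (i, δ) = h.choose := dif_pos h
    change G (i, δ) = k
    rw [h4]
    obtain ⟨v', hv'⟩ := h.choose_spec
    exact (Dv_fun hv' h3).1

theorem al_extend {i₀ j₀ : I} {v₀ : Bool} {l : ℕ} {J J' : Set I} {u : PC e code}
    (h : AlB A β p q i₀ j₀ v₀ l J u) (hJ : ∀ k ∈ J', k ∉ J → k ∉ AlRel p q j₀) :
    AlB A β p q i₀ j₀ v₀ l J' u := by
  refine ⟨fun i hi => ?_, fun i hi => ?_, fun i δ n ξ hC j hj v hv => ?_, fun hX hj => ?_⟩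
  · by_cases h1 : i ∈ J
    · exact h.lp i h1
    · have h2 : p.f i = Dat.emp := by
        by_contra hne
        exact hJ i hi h1 (Or.inl (Or.inl (Or.inl hne)))
      unfold AlAt
      rw [h2]
      exact ⟨Dat.le_emp _, fun _ _ _ _ _ h => h.elim⟩
  · by_cases h1 : i ∈ J
    · exact h.lq i h1
    · have h2 : q.f i = Dat.emp := by
        by_contra hne
        exact hJ i hi h1 (Or.inl (Or.inl (Or.inr hne)))
      unfold AlAt
      rw [h2]
      exact ⟨Dat.le_emp _, fun _ _ _ _ _ h => h.elim⟩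
  · by_cases h1 : j ∈ J
    · exact h.con i δ n ξ hC j h1 v hv
    · exact absurd (Or.inr ⟨i, δ, n, v, hC.F, hv⟩) (hJ j hj h1)
  · by_cases h1 : j₀ ∈ J
    · exact h.ext hX h1
    · exact absurd (Or.inl (Or.inr rfl)) (hJ j₀ hj h1)

theorem al_build [WellFoundedLT Ω] (H : AlH A β p q) (i₀ j₀ : I) (v₀ : Bool) (l : ℕ) (j : I) :
    ∃ u, AlB A β p q i₀ j₀ v₀ l (Iio j) u := by
  induction j using WellFoundedLT.induction with
  | ind j ih =>
    by_cases hne : (AlRel p q j₀ ∩ Iio j).Nonempty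
    · obtain ⟨j', hj', hmax⟩ := Set.exists_max_image (AlRel p q j₀ ∩ Iio j) id
        ((al_rel_finite p q j₀).inter_of_left _) hne
      obtain ⟨u, hu⟩ := ih j' hj'.2
      obtain ⟨u', hu'⟩ := al_step H hu
      refine ⟨u', al_extend hu' fun k hk hk' hR => ?_⟩
      exact hk' (hmax k ⟨hR, hk⟩)
    · refine ⟨p, al_extend (J := ∅) ⟨fun i hi => hi.elim, fun i hi => hi.elim,
        fun i δ n ξ hC j hj => hj.elim, fun hX hj => hj.elim⟩ fun k hk _ hR => ?_⟩
      exact hne ⟨k, hR, hk⟩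

theorem amalgam [WellFoundedLT Ω] (he : EnumL (fun x y => x < y) e) {A : Set I} {β : Ω}
    (hA : Good e code A β) {p q : PC e code} (hp : Nice p) (hq : In A β q)
    (hqp : q ≤ red A β p)
    (hag : ∀ i ∈ A, ∀ γ, γ < β → ∀ n, (p.f i).F γ n → ∀ k v, p ∈ Dv i γ k v → q ∈ Dv i γ k v)
    (i₀ j₀ : I) (v₀ : Bool) (l : ℕ) :
    ∃ u, u ≤ p ∧ u ≤ q ∧ (i₀ ∈ A → (∃ n, (p.f i₀).F β n) → p ∈ Dv i₀ β j₀ v₀ →
      (p.f j₀).c β l = none →
      (∀ m x γ, (p.f j₀).c β m = some x → e β m γ → CE q i₀ γ (.inr l) false) →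
        CE u i₀ β (.inr l) true) := by
  have H : AlH A β p q := ⟨he, hA, hp, hq, hqp, hag⟩
  have hne : (AlRel p q j₀).Nonempty := ⟨j₀, Or.inl (Or.inr rfl)⟩
  obtain ⟨j', hj', hmax⟩ := Set.exists_max_image (AlRel p q j₀) id (al_rel_finite p q j₀) hne
  obtain ⟨u, hu⟩ := al_build H i₀ j₀ v₀ l j'
  obtain ⟨u', hu'⟩ := al_step H hu
  have hB : AlB A β p q i₀ j₀ v₀ l univ u' := al_extend hu' fun k _ hk' hR => hk' (hmax k hR)
  have hup : u' ≤ p := PC.le_iff.2 fun i => hB.lp i (mem_univ i)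
  refine ⟨u', hup, PC.le_iff.2 fun i => hB.lq i (mem_univ i), ?_⟩
  intro h1 h2 h3 h4 h5
  rw [CE_iff]
  refine Or.inr (Or.inr ⟨j₀, v₀, !v₀, RO.mem_lower hup h3, hB.ext ⟨h1, h2, h3, h4, h5⟩
    (mem_univ _), ?_⟩)
  cases v₀ <;> rfl

end Amal

end Pool.Agent.Helper69.HA
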