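import Mathlib

/-!
# Project HA: finite certificates

`L` is a linear order of type `ω₁`, `e δ m γ`: `γ` is the `m`-th element below `δ`. There are names
`j : I` of subsets `b_j` of `L`; `D j δ k v`: the node `b_j ∩ δ` has the index `k`, and `v` tells
whether `δ ∈ b_j`. `C k δ m x`: the `m`-th value at the node with index `k` and level `δ` is `x`.
`Cer j δ o b` is a certificate for: `o` belongs to the set of level `δ` along the branch `b_j`
(`b = true`) or does not belong to it (`b = false`); here `o` is an element of `L` or a natural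
number.
-/

set_option autoImplicit false

namespace Pool.Agent.Helper69.HA

universe u v

/-- The first part of a value. -/
def bE (x : ℕ) : Bool := decide (x % 2 = 1)

/-- The second part of a value. -/
def bH (x : ℕ) : Bool := decide (x / 2 % 2 = 1)

/-- The third part of a value. -/
def vF (x : ℕ) : ℕ := x / 4

theorem exists_val (a b : Bool) (n : ℕ) : ∃ x, bE x = a ∧ bH x = b ∧ vF x = n := by
  cases a <;> cases b
  · exact ⟨4 * n, by simp [bE]; omega, by simp [bH]; omega, by simp [vF]⟩
  · exact ⟨4 * n + 2, by simp [bE]; omega, by simp [bH]; omega, by simp [vF]; omega⟩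
  · exact ⟨4 * n + 1, by simp [bE]; omega, by simp [bH]; omega, by simp [vF]; omega⟩
  · exact ⟨4 * n + 3, by simp [bE]; omega, by simp [bH]; omega, by simp [vF]; omega⟩

/-- Certificates. -/
inductive Cer {I : Type u} {L : Type v} (lt : L → L → Prop) (e : L → ℕ → L → Prop)
    (D : I → L → I → Bool → Prop) (C : I → L → ℕ → ℕ → Prop) : I → L → L ⊕ ℕ → Bool → Prop
  | self (j : I) (δ : L) : Cer lt e D C j δ (.inl δ) true
  | above (j : I) (δ ξ : L) : lt δ ξ → Cer lt e D C j δ (.inl ξ) false
  | step (j : I) (δ ξ : L) (k : I) (v : Bool) (m : ℕ) (γ : L) (x : ℕ) : lt ξ δ → D j δ k v →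
      (∀ m', m' < m → ∀ γ', e δ m' γ' → Cer lt e D C k γ' (.inl ξ) false) → e δ m γ →
      Cer lt e D C k γ (.inl ξ) true → C k δ m x → Cer lt e D C j δ (.inl ξ) (bE x != v)
  | hit (j : I) (δ : L) (l : ℕ) (k : I) (v : Bool) (m : ℕ) (γ : L) (x : ℕ) : D j δ k v → m ≤ l →
      (∀ m', m' < m → ∀ γ', e δ m' γ' → Cer lt e D C k γ' (.inr l) false) → e δ m γ →
      Cer lt e D C k γ (.inr l) true → C k δ m x → vF x ≤ l → Cer lt e D C j δ (.inr l) (bE x != v)
  | low (j : I) (δ : L) (l : ℕ) (k : I) (v : Bool) (m : ℕ) (γ : L) (x y : ℕ) : D j δ k v → m ≤ l →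
      (∀ m', m' < m → ∀ γ', e δ m' γ' → Cer lt e D C k γ' (.inr l) false) → e δ m γ →
      Cer lt e D C k γ (.inr l) true → C k δ m x → l < vF x → C k δ l y →
      Cer lt e D C j δ (.inr l) (bH y != v)
  | none (j : I) (δ : L) (l : ℕ) (k : I) (v : Bool) (y : ℕ) : D j δ k v →
      (∀ m', m' ≤ l → ∀ γ', e δ m' γ' → Cer lt e D C k γ' (.inr l) false) → C k δ l y →
      Cer lt e D C j δ (.inr l) (bH y != v)

/-- The enumeration of the elements below `δ`. -/
structure EnumL {L : Type v} (lt : L → L → Prop) (e : L → ℕ → L → Prop) : Prop where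
  func : ∀ δ m γ γ', e δ m γ → e δ m γ' → γ = γ'
  below : ∀ δ m γ, e δ m γ → lt γ δ
  onto : ∀ γ δ, lt γ δ → ∃ m, e δ m γ

end Pool.Agent.Helper69.HA
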