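import Pool.Agent.Helper69.HA.Cer
import Pool.Agent.Helper33.HM.RO

/-!
# Project HA: the iteration, definitions

A condition gives for finitely many places `i : I` a datum: a finite part `c` of the values at the
nodes of the `i`-th branch (all levels), a finite part `φ` of a function `Ω → ℕ`, and a finite set
`F` of promises: `F δ n` promises that no new element gets the value `n` and belongs to the set of
level `δ` along the `i`-th branch. The `i`-th branch `b_i` is given by the code `code i`:
`γ ∈ b_i` iff the generic filter contains an element of `code i γ`.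
-/

set_option autoImplicit false

namespace Pool.Agent.Helper69.HA

open Set Pool.Agent.Helper33.HM

universe u

/-- The datum at a place. -/
@[ext] structure Dat (Ω : Type) where
  c : Ω → ℕ → Option ℕ
  φ : Ω → Option ℕ
  F : Ω → ℕ → Prop
  finc : {z : Ω × ℕ | c z.1 z.2 ≠ none}.Finite
  finφ : {z : Ω | φ z ≠ none}.Finite
  finF : {z : Ω × ℕ | F z.1 z.2}.Finite

/-- The empty datum. -/
def Dat.emp {Ω : Type} : Dat Ω :=
  ⟨fun _ _ => none, fun _ => none, fun _ _ => False, by simp, by simp, by simp⟩

/-- The datum `x` extends `y`. -/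
structure Dat.Le {Ω : Type} (x y : Dat Ω) : Prop where
  c : ∀ δ m a, y.c δ m = some a → x.c δ m = some a
  φ : ∀ ξ n, y.φ ξ = some n → x.φ ξ = some n
  F : ∀ δ n, y.F δ n → x.F δ n

/-- Conditions. -/
@[ext] structure Cond (I : Type u) (Ω : Type) where
  f : I → Dat Ω
  fin : {i | f i ≠ Dat.emp}.Finite

namespace Cond

variable {I : Type u} {Ω : Type}

/-- The empty condition. -/
def empty : Cond I Ω := ⟨fun _ => Dat.emp, by simp⟩

variable [LinearOrder I]

/-- All places of `p` are less than `i`. -/
def lt (p : Cond I Ω) (i : I) : Prop := ∀ j, p.f j ≠ Dat.emp → j < i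

/-- The restriction to the places less than `i`. -/
def res (p : Cond I Ω) (i : I) : Cond I Ω :=
  ⟨fun j => if j < i then p.f j else Dat.emp, p.fin.subset fun j hj => by
    by_cases h : j < i
    · simpa [h] using hj
    · simp [h] at hj⟩

/-- The condition which agrees with `q` below `i` and with `p` from `i` on. -/
def glue (i : I) (q p : Cond I Ω) : Cond I Ω :=
  ⟨fun j => if j < i then q.f j else p.f j, (q.fin.union p.fin).subset fun j hj => by
    by_cases h : j < i
    · left; simpa [h] using hj
    · right; simpa [h] using hj⟩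

/-- The condition `p` with the datum `x` at `i`. -/
def put (p : Cond I Ω) (i : I) (x : Dat Ω) : Cond I Ω :=
  ⟨fun j => if j = i then x else p.f j, (p.fin.insert i).subset fun j hj => by
    by_cases h : j = i
    · left; exact h
    · right; simpa [h] using hj⟩

end Cond

section Raw

variable {I : Type u} [LinearOrder I] {Ω : Type}

/-- `p` forces that the generic filter contains an element of `X`, for the conditions of
length `i`, ordered by `le`. -/
def hit (i : I) (le : Cond I Ω → Cond I Ω → Prop) (X : Set (Cond I Ω)) (p : Cond I Ω) : Prop :=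
  ∀ q, q.lt i → le q p → ∃ r, r.lt i ∧ le r q ∧ ∃ a ∈ X, a.lt i ∧ le r a

variable [LinearOrder Ω]

/-- `p` forces that `b_i` and `b_j` are equal below `δ`. -/
def eqR (code : I → Ω → Set (Cond I Ω)) (i : I) (le : Cond I Ω → Cond I Ω → Prop) (j : I) (δ : Ω)
    (p : Cond I Ω) : Prop :=
  ∀ γ, γ < δ → ∀ q, q.lt i → le q p →
    (hit i le (code i γ) q ↔ hit j le (code j γ) (q.res j))

/-- `p` forces that `j` is the index of the node `b_i ∩ δ`, and that `δ ∈ b_i` or `δ ∉ b_i`
according to `v`. -/
def DR (code : I → Ω → Set (Cond I Ω)) (i : I) (le : Cond I Ω → Cond I Ω → Prop) (δ : Ω) (j : I)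
    (v : Bool) (p : Cond I Ω) : Prop :=
  j ≤ i ∧ eqR code i le j δ p ∧
    (∀ k, k < j → ∀ q, q.lt i → le q p → ¬ eqR code i le k δ q) ∧
    if v = true then hit i le (code i δ) p
    else ∀ q, q.lt i → le q p → ¬ hit i le (code i δ) q

/-- The relation at the place `i`; `L k` is the order of the conditions of length `k`, `k ≤ i`. -/
def stepR (e : Ω → ℕ → Ω → Prop) (code : I → Ω → Set (Cond I Ω)) (i : I)
    (L : I → Cond I Ω → Cond I Ω → Prop) (p q : Cond I Ω) : Prop :=
  (p.f i).Le (q.f i) ∧ ∀ ξ n δ, (p.f i).φ ξ = some n → (q.f i).φ ξ = none → (q.f i).F δ n →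
    Cer (fun x y => x < y) e (fun j δ k v => DR code j (L j) δ k v (p.res j))
      (fun k δ m x => (p.f k).c δ m = some x) i δ (.inl ξ) false

variable [WellFoundedLT I]

/-- The order of the conditions of length `i`. -/
noncomputable def leR (e : Ω → ℕ → Ω → Prop) (code : I → Ω → Set (Cond I Ω)) :
    I → Cond I Ω → Cond I Ω → Prop :=
  (wellFounded_lt (α := I)).fix fun i IH p q =>
    ∀ j, ∀ hj : j < i, stepR e code j (fun k x y => ∀ hk : k ≤ j, IH k (hk.trans_lt hj) x y) p q

end Raw

/-- The poset of conditions for the bookkeeping function `code`. -/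
def PC {I : Type u} {Ω : Type} (_e : Ω → ℕ → Ω → Prop) (_code : I → Ω → Set (Cond I Ω)) : Type u :=
  Cond I Ω

namespace PC

variable {I : Type u} {Ω : Type} {e : Ω → ℕ → Ω → Prop} {code : I → Ω → Set (Cond I Ω)}

/-- The condition as a finite function. -/
def c (p : PC e code) : Cond I Ω := p

/-- A finite function as a condition. -/
def mk (p : Cond I Ω) : PC e code := p

end PC

end Pool.Agent.Helper69.HA
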