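import Pool.Agent.Helper69.HA.Cer

/-!
# Project HA: the combinatorial sentence
-/

set_option autoImplicit false

namespace Pool.Agent.Helper69.HA

universe v

/-- `o` belongs to the set of level `δ` along the branch `b`. Here `E δ t m x` says that `x` is the
`m`-th value at the node `t` (a set of elements below `δ`). -/
def MemL {L : Type v} (lt : L → L → Prop) (e : L → ℕ → L → Prop) (E : L → Set L → ℕ → ℕ → Prop)
    (b : Set L) (δ : L) (o : L ⊕ ℕ) : Prop :=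
  Cer (I := Unit) lt e (fun _ δ _ v => (v = true ↔ δ ∈ b))
    (fun _ δ m x => E δ {γ | γ ∈ b ∧ lt γ δ} m x) () δ o true

/-- The sentence: `L` is the least uncountable ordinal, `𝒮` the collection of the subsets of `L`,
`𝒢` the collection of the relations `e δ m γ`, `ℰ` the collection of the relations `E δ t m x`, `𝒯`
the collection of the relations between `L` and `ℕ`, `𝒩` the collection of the subsets of `ℕ` which
are considered. -/
def HSent (L : Type v) (lt : L → L → Prop) (𝒮 : Set (Set L)) (𝒢 : Set (L → ℕ → L → Prop))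
    (ℰ : Set (L → Set L → ℕ → ℕ → Prop)) (𝒯 : Set (L → ℕ → Prop)) (𝒩 : Set (Set ℕ)) : Prop :=
  ∃ e ∈ 𝒢, EnumL lt e ∧ ∃ E ∈ ℰ,
    (∀ b ∈ 𝒮, ∀ δ m, ∃! x, E δ {γ | γ ∈ b ∧ lt γ δ} m x) ∧
    ∀ b ∈ 𝒮,
      (∃ φ ∈ 𝒯, (∀ γ, ∃! n, φ γ n) ∧
        ∀ δ n, {γ | φ γ n ∧ MemL lt e E b δ (.inl γ)}.Finite) ∧
      ∀ A ∈ 𝒩, A.Infinite → ∃ δ, {l | l ∈ A ∧ MemL lt e E b δ (.inr l)}.Infinite

end Pool.Agent.Helper69.HA
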