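import Pool.Agent.Helper69.HA.Sub
import Pool.Agent.Helper69.HA.Sent
import Pool.Agent.Helper52.MA.Defs2

/-!
# Project HA: further definitions for the forcing, and the names
-/

set_option autoImplicit false
set_option linter.unusedSectionVars false

namespace Pool.Agent.Helper69.HA

open Set Pool.Agent.Helper33.HM Pool.Agent.Helper33.HMG Pool.Agent.Helper32.HB
open Pool.Agent.Helper52.MA (El IsOmega1 setsM pairN numN on wN setN st)

universe u

section

variable {I : Type u} [LinearOrder I] [WellFoundedLT I] {Ω : Type} [LinearOrder Ω]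
  {e : Ω → ℕ → Ω → Prop} {code : I → Ω → Set (Cond I Ω)}

/-- `p` certifies that the value for the object `o` at the node with the index `k` and the level
`δ` is `a`. -/
def Nod (p : PC e code) (k : I) (δ : Ω) : Ω ⊕ ℕ → Bool → Prop
  | .inl ξ, a => ξ < δ ∧ ∃ m γ x, (∀ m', m' < m → ∀ γ', e δ m' γ' → CE p k γ' (.inl ξ) false) ∧
      e δ m γ ∧ CE p k γ (.inl ξ) true ∧ (p.f k).c δ m = some x ∧ a = bE x
  | .inr l, a =>
      (∃ m γ x, m ≤ l ∧ (∀ m', m' < m → ∀ γ', e δ m' γ' → CE p k γ' (.inr l) false) ∧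
        e δ m γ ∧ CE p k γ (.inr l) true ∧ (p.f k).c δ m = some x ∧ vF x ≤ l ∧ a = bE x) ∨
      (∃ m γ x y, m ≤ l ∧ (∀ m', m' < m → ∀ γ', e δ m' γ' → CE p k γ' (.inr l) false) ∧
        e δ m γ ∧ CE p k γ (.inr l) true ∧ (p.f k).c δ m = some x ∧ l < vF x ∧
        (p.f k).c δ l = some y ∧ a = bH y) ∨
      ∃ y, (∀ m', m' ≤ l → ∀ γ', e δ m' γ' → CE p k γ' (.inr l) false) ∧
        (p.f k).c δ l = some y ∧ a = bH y

/-- `p'` extends `p`, nothing is changed at the places greater than `j`, and at `j` only new values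
of the nodes are added, which follow the rule `ρ`. -/
structure Ext (ρ : Ω → ℕ → ℕ) (j : I) (p' p : PC e code) : Prop where
  le : p' ≤ p
  above : ∀ k, j < k → p'.f k = p.f k
  φ : (p'.f j).φ = (p.f j).φ
  F : (p'.f j).F = (p.f j).F
  c : ∀ δ m x, (p'.f j).c δ m = some x → (p.f j).c δ m = some x ∨ x = ρ δ m

/-- Nice conditions. -/
structure Nice (p : PC e code) : Prop where
  n1 : ∀ i δ n, (p.f i).F δ n → ∃ k v, p ∈ Dv i δ k v
  n2 : ∀ i δ n k v m x γ, (p.f i).F δ n → p ∈ Dv i δ k v → (p.f k).c δ m = some x → e δ m γ →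
    (p.f i).F γ n
  n3 : ∀ k δ m x γ, (p.f k).c δ m = some x → e δ m γ → ∃ k' v', p ∈ Dv k γ k' v'

/-- The places of `p` are in `A` and the elements of `Ω` which occur in `p` are less than `β`. -/
structure In (A : Set I) (β : Ω) (p : PC e code) : Prop where
  dom : ∀ i, p.f i ≠ Dat.emp → i ∈ A
  c : ∀ i δ m, (p.f i).c δ m ≠ none → δ < β
  φ : ∀ i ξ, (p.f i).φ ξ ≠ none → ξ < β
  F : ∀ i δ n, (p.f i).F δ n → δ < β

/-- Good pairs: the indices of the nodes of the names in `A` at the levels below `β` are in `A`,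
and different names in `A` split below `β`. -/
structure Good (e : Ω → ℕ → Ω → Prop) (code : I → Ω → Set (Cond I Ω)) (A : Set I) (β : Ω) :
    Prop where
  idx : ∀ i ∈ A, ∀ γ, γ < β → ∀ (p : PC e code) k v, p ∈ Dv i γ k v → k ∈ A
  dif : ∀ i ∈ A, ∀ i' ∈ A, ∀ (p : PC e code) δ k v, p ∈ Dv i δ k v → p ∈ Dv i' δ k (!v) → δ < β

open Classical in
/-- The restriction of a datum to the elements less than `β`. -/
noncomputable def cut (β : Ω) (x : Dat Ω) : Dat Ω where
  c δ m := if δ < β then x.c δ m else none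
  φ ξ := if ξ < β then x.φ ξ else none
  F δ n := δ < β ∧ x.F δ n
  finc := by
    refine x.finc.subset fun z hz => ?_
    by_cases h : z.1 < β
    · simpa [h] using hz
    · simp [h] at hz
  finφ := by
    refine x.finφ.subset fun z hz => ?_
    by_cases h : z < β
    · simpa [h] using hz
    · simp [h] at hz
  finF := x.finF.subset fun z hz => hz.2

theorem cut_emp (β : Ω) : cut β (Dat.emp : Dat Ω) = Dat.emp := by
  apply Dat.ext <;> simp [Dat.emp, cut]

open Classical in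
/-- The restriction of `p` to the places in `A` and to the elements less than `β`. -/
noncomputable def red (A : Set I) (β : Ω) (p : PC e code) : PC e code :=
  PC.mk ⟨fun i => if i ∈ A then cut β (p.f i) else Dat.emp, by
    refine p.c.fin.subset fun i hi => ?_
    intro h
    apply hi
    have h' : p.f i = Dat.emp := h
    rw [h', cut_emp]
    split <;> rfl⟩

/-- Every set of pairwise incompatible conditions with all places in `J` is countable. -/
def CccOn (e : Ω → ℕ → Ω → Prop) (code : I → Ω → Set (Cond I Ω)) (J : Set I) : Prop :=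
  ∀ A : Set (PC e code), (∀ p ∈ A, ∀ i, p.f i ≠ Dat.emp → i ∈ J) →
    (∀ p ∈ A, ∀ q ∈ A, p ≠ q → ¬ ∃ r : PC e code, r ≤ p ∧ r ≤ q) → A.Countable

/-! ### Names -/

section Names

variable {P : Type u} [Preorder P] [OrderTop P] [WellFoundedLT Ω]

open Classical in
/-- The truth values of the set `b ∩ δ`. -/
noncomputable def rstr (b : Ω → RO P) (δ : Ω) (γ : Ω) : RO P := if γ < δ then b γ else ⊥

/-- The name of the enumeration `e`. -/
noncomputable def eN (P : Type u) [Preorder P] [OrderTop P] (e : Ω → ℕ → Ω → Prop) : Nm P :=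
  .mk (ULift.{u} {z : Ω × ℕ × Ω // e z.1 z.2.1 z.2.2})
    (fun z => pairN (on z.down.1.1) (pairN (numN z.down.1.2.1) (on z.down.1.2.2))) (fun _ => ⊤)

/-- The name of the function with the values of the nodes. -/
noncomputable def EN (e : Ω → ℕ → Ω → Prop) (code : I → Ω → Set (Cond I Ω)) : Nm (PC e code) :=
  .mk {z : I × Ω × ℕ × ℕ × PC e code // ∃ k v, z.2.2.2.2 ∈ Dv z.1 z.2.1 k v ∧
      (z.2.2.2.2.f k).c z.2.1 z.2.2.1 = some z.2.2.2.1}
    (fun z => pairN (on z.1.2.1) (pairN (setN (rstr (bt z.1.1) z.1.2.1))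
      (pairN (numN z.1.2.2.1) (numN z.1.2.2.2.1)))) (fun z => z.1.2.2.2.2)

/-- The name of the function `φ` at the place `i`. -/
noncomputable def phN (i : I) : Nm (PC e code) :=
  .mk {z : Ω × ℕ × PC e code // (z.2.2.f i).φ z.1 = some z.2.1}
    (fun z => pairN (on z.1.1) (numN z.1.2.1)) (fun z => z.1.2.2)

variable [Nonempty I]

open Classical in
/-- A place for the set with the name `σ`. -/
noncomputable def ix (σ : Nm (PC e code)) : I :=
  Classical.epsilon fun i => ∀ γ : Ω, bt i γ = st σ γ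

/-- The requirements. -/
inductive RA : Type
  | setE | sete | pre (m : ℕ) | set | rst | phi | val (m : ℕ) | ceN (l : ℕ) | ceB | ph
  | fin (n : ℕ) | bd | dlt | hit (n : ℕ)
  deriving Countable

/-- The meaning of the requirements. -/
def WA (e : Ω → ℕ → Ω → Prop) (code : I → Ω → Set (Cond I Ω)) :
    RA → (ℕ → Nm (PC e code)) → PC e code → Nm (PC e code) → Prop
  | .setE, _, _, x => x = EN e code
  | .sete, _, _, x => x = eN (PC e code) e
  | .pre m, v, _, x => ∃ δ γ, v 0 = on δ ∧ e δ m γ ∧ x = on γ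
  | .set, v, _, x => x = setN (Ω := Ω) (st (v 0))
  | .rst, v, _, x => ∃ δ : Ω, v 1 = on δ ∧ x = setN (rstr (st (v 0)) δ)
  | .phi, v, _, x => x = phN (ix (v 0))
  | .val m, v, p, x => ∃ δ : Ω, v 1 = on δ ∧ ∃ a k b, x = numN a ∧ p ∈ Dv (ix (v 0)) δ k b ∧
      (p.f k).c δ m = some a
  | .ceN l, v, p, _ => ∃ δ : Ω, v 1 = on δ ∧ ∃ b, CE p (ix (v 0)) δ (.inr l) b
  | .ceB, v, p, _ => ∃ δ ξ : Ω, v 1 = on δ ∧ v 2 = on ξ ∧ ∃ b, CE p (ix (v 0)) δ (.inl ξ) b
  | .ph, v, p, x => ∃ ξ : Ω, v 1 = on ξ ∧ ∃ n, x = numN n ∧ (p.f (ix (v 0))).φ ξ = some n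
  | .fin n, v, p, _ => ∃ δ : Ω, v 1 = on δ ∧ (p.f (ix (v 0))).F δ n
  | .bd, v, p, _ => ∃ n, ∀ l, n ≤ l → p ∈ (memv (numN l) (v 0))ᶜ
  | .dlt, v, p, x => ∃ δ : Ω, x = on δ ∧ ∀ n q, q ≤ p → ∃ r, r ≤ q ∧ ∃ l, n ≤ l ∧
      r ∈ memv (numN l) (v 0) ∧ CE r (ix (v 1)) δ (.inr l) true
  | .hit n, v, p, _ => ∃ δ : Ω, v 2 = on δ ∧ ∃ l, n ≤ l ∧ p ∈ memv (numN l) (v 0) ∧
      CE p (ix (v 1)) δ (.inr l) true

end Names

end

/-! ### The sentence in a transitive set -/

/-- The ternary relations `G δ m γ` on `w`, `ω`, `w` which belong to `M`. -/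
def relsE (M : Set ZFSet.{0}) (w : ZFSet.{0}) : Set (El w → ℕ → El w → Prop) :=
  {G | ∃ r ∈ M, ∀ δ m γ, G δ m γ ↔ ZFSet.pair δ.1 (ZFSet.pair (Gen.nat m) γ.1) ∈ r}

/-- The relations `E δ t m x` which belong to `M`, where `t` is a subset of `w` which belongs
to `M`. -/
def fnsE (M : Set ZFSet.{0}) (w : ZFSet.{0}) : Set (El w → Set (El w) → ℕ → ℕ → Prop) :=
  {E | ∃ r ∈ M, ∀ δ t m x, E δ t m x ↔ ∃ t' ∈ M, (∀ z ∈ t', z ∈ w) ∧
    (∀ y : El w, y ∈ t ↔ y.1 ∈ t') ∧
      ZFSet.pair δ.1 (ZFSet.pair t' (ZFSet.pair (Gen.nat m) (Gen.nat x))) ∈ r}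

/-- The relations between `w` and `ω` which belong to `M`. -/
def tabs (M : Set ZFSet.{0}) (w : ZFSet.{0}) : Set (El w → ℕ → Prop) :=
  {T | ∃ r ∈ M, ∀ γ n, T γ n ↔ ZFSet.pair γ.1 (Gen.nat n) ∈ r}

/-- The subsets of `ω` which belong to `M`. -/
def realsN (M : Set ZFSet.{0}) : Set (Set ℕ) := {A | ∃ a ∈ M, ∀ n, n ∈ A ↔ Gen.nat n ∈ a}

/-- The sentence holds in the transitive set `M`. -/
def HModel (M : Set ZFSet.{0}) : Prop :=
  ∃ w ∈ M, IsOmega1 M w ∧ HSent (El w) (fun x y => x.1 ∈ y.1) (setsM M w) (relsE M w)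
    (fnsE M w) (tabs M w) (realsN M)

end Pool.Agent.Helper69.HA
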