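import Pool.Agent.Helper69.HA.Defs2
import Pool.Agent.Helper52.MA.MAM

/-!
# Project HA: the objects in the model
-/

set_option autoImplicit false
set_option linter.unusedSectionVars false

namespace Pool.Agent.Helper69.HA

open Set Pool.Agent.Helper33.HM Pool.Agent.Helper33.HMG Pool.Agent.Helper32.HB
open Pool.Agent.Helper52.MA (El IsOmega1 setsM pairN numN on wN setN st PCCC Tr Meets mam_e)

variable {Ω : Type} [LinearOrder Ω] [WellFoundedLT Ω] {e : Ω → ℕ → Ω → Prop}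
  {code : Ordinal.{0} → Ω → Set (Cond Ordinal.{0} Ω)} {R : Type}
  {W : R → (ℕ → Nm (PC e code)) → PC e code → Nm (PC e code) → Prop}

/-- The generic sequence meets the requirements. -/
def MeetsA (g : Gen W) : Prop :=
  ∀ (r : RA) (t : List (Nm (PC e code))), (∀ x ∈ t, x ∈ g.N) →
    ∃ k, (∃ x ∈ g.N, WA e code r (asg t) (g.pc k) x) ∨
      ∀ q, q ≤ g.pc k → ∀ x, ¬ WA e code r (asg t) q x

variable (g : Gen W)

/-- The enumerations in the model. -/
def eM (δ : El (g.val (wN Ω))) (m : ℕ) (γ : El (g.val (wN Ω))) : Prop :=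
  ZFSet.pair δ.1 (ZFSet.pair (Gen.nat m) γ.1) ∈ g.val (eN (PC e code) e)

/-- The values of the nodes in the model. -/
def EM (δ : El (g.val (wN Ω))) (t : Set (El (g.val (wN Ω)))) (m x : ℕ) : Prop :=
  ∃ t' ∈ g.M, (∀ z ∈ t', z ∈ g.val (wN Ω)) ∧ (∀ y : El (g.val (wN Ω)), y ∈ t ↔ y.1 ∈ t') ∧
    ZFSet.pair δ.1 (ZFSet.pair t' (ZFSet.pair (Gen.nat m) (Gen.nat x))) ∈ g.val (EN e code)

/-- The branch in the model given by the name `σ`. -/
def brM (σ : Nm (PC e code)) : Set (El (g.val (wN Ω))) := {y | y.1 ∈ g.val σ}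

end Pool.Agent.Helper69.HA
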