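import Pool.Agent.Helper28.HA.SentM
import Pool.Agent.Helper83.HA.Ccc
import Pool.Agent.Helper90.HA.Book
import Pool.Agent.Helper52.MA.Main

/-!
# Project HA: the sentence holds in a countable transitive model of ZFC
-/

set_option autoImplicit false
set_option linter.unusedSectionVars false

namespace Pool.Agent.Helper69.HA

open Set Pool.Agent.Helper33.HM Pool.Agent.Helper33.HMG Pool.Agent.Helper32.HB
open Pool.Agent.Helper52.MA (El IsOmega1 setsM pairN numN on wN setN st PCCC Tr Meets mam_e)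

theorem exists_enumL {Ω : Type} [LinearOrder Ω] (hI : ∀ b : Ω, (Iio b).Countable) :
    ∃ e : Ω → ℕ → Ω → Prop, EnumL (fun x y => x < y) e := by
  have h : ∀ b : Ω, ∃ f : ℕ → Option Ω, (∀ m γ, f m = some γ → γ < b) ∧
      ∀ γ, γ < b → ∃ m, f m = some γ := by
    intro b
    have hc : Countable (Iio b) := (hI b).to_subtype
    obtain ⟨f, hf⟩ := hc.exists_injective_nat
    classical
    refine ⟨fun m => if h : ∃ x : Iio b, f x = m then some h.choose.1 else none, ?_, ?_⟩
    · intro m γ hm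
      by_cases h : ∃ x : Iio b, f x = m
      · simp only [dif_pos h] at hm
        rw [← Option.some.inj hm]
        exact h.choose.2
      · simp only [dif_neg h] at hm
        exact absurd hm (by simp)
    · intro γ hγ
      have hγ' : γ ∈ Iio b := hγ
      have h : ∃ x : Iio b, f x = f ⟨γ, hγ'⟩ := ⟨⟨γ, hγ'⟩, rfl⟩
      refine ⟨f ⟨γ, hγ'⟩, ?_⟩
      simp only [dif_pos h]
      have := hf h.choose_spec
      rw [this]
  choose f hf1 hf2 using h
  exact ⟨fun δ m γ => f δ m = some γ, fun δ m γ γ' h h' => Option.some.inj (h.symm.trans h'),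
    fun δ m γ h => hf1 δ m γ h, fun γ δ h => hf2 δ γ h⟩

theorem exists_ha_model : ∃ M : Set ZFSet.{0}, M.Countable ∧ IsTransModelZFC M ∧ HModel M := by
  let Ω := (Ordinal.omega.{0} 1).ToType
  obtain ⟨e, he⟩ := exists_enumL (Ω := Ω) Pool.Agent.Helper52.MA.omT_Iio
  obtain ⟨code, hcode⟩ := exists_code Ω
  have hc : PCCC (PC e code) := pc_ccc he Pool.Agent.Helper52.MA.main_bdd
    Pool.Agent.Helper52.MA.omT_Iio
  have hix : ∀ U : Ω → RO (PC e code), ∃ i, ∀ γ, bt i γ = U γ := exists_place hc hcode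
  obtain ⟨g⟩ := exists_gen (P := PC e code) (R := Pool.Agent.Helper52.MA.RQ ⊕ RA)
    (fun r => Sum.elim (Pool.Agent.Helper52.MA.WQ Ω) (WA e code) r)
  have hg : Meets Ω g := fun r t ht => g.req (Sum.inl r) t ht
  have hr : MeetsA g := fun r t ht => g.req (Sum.inr r) t ht
  refine ⟨g.M, g.countable_M, zfc_of_ch g (fun τ hτ =>
    Pool.Agent.Helper52.MA.chN_mem g hg hτ), g.val (wN Ω),
    ⟨_, Pool.Agent.Helper52.MA.wN_mem g hg, rfl⟩,
    Pool.Agent.Helper52.MA.isOmega1 g hg Pool.Agent.Helper52.MA.omT_Iio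
      (Pool.Agent.Helper52.MA.noColl_of_ccc hc Pool.Agent.Helper52.MA.main_unc),
    ha_sentence g hg hr hix he Pool.Agent.Helper52.MA.main_bdd Pool.Agent.Helper52.MA.omT_Iio⟩

end Pool.Agent.Helper69.HA
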