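import Pool.Agent.Helper69.HA.Defs
import Pool.Agent.Helper69.HA.CerFacts

/-!
# Project HA: the conditions form a preorder
-/

set_option autoImplicit false
set_option linter.unusedSectionVars false

namespace Pool.Agent.Helper69.HA

open Set Pool.Agent.Helper33.HM

universe u

theorem Dat.Le.refl {Ω : Type} (x : Dat Ω) : x.Le x := ⟨fun _ _ _ h => h, fun _ _ h => h,
  fun _ _ h => h⟩

theorem Dat.Le.trans {Ω : Type} {x y z : Dat Ω} (h : x.Le y) (h' : y.Le z) : x.Le z :=
  ⟨fun _ _ _ a => h.c _ _ _ (h'.c _ _ _ a), fun _ _ a => h.φ _ _ (h'.φ _ _ a),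
    fun _ _ a => h.F _ _ (h'.F _ _ a)⟩

theorem Dat.le_emp {Ω : Type} (x : Dat Ω) : x.Le Dat.emp :=
  ⟨fun _ _ _ h => by simp [Dat.emp] at h, fun _ _ h => by simp [Dat.emp] at h,
    fun _ _ h => by simp [Dat.emp] at h⟩

namespace Cond

variable {I : Type u} [LinearOrder I] {Ω : Type}

theorem lt_mono {p : Cond I Ω} {i j : I} (h : i ≤ j) (hp : p.lt i) : p.lt j :=
  fun k hk => lt_of_lt_of_le (hp k hk) h

theorem res_f (p : Cond I Ω) (i j : I) :
    (p.res i).f j = if j < i then p.f j else Dat.emp := rfl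

theorem res_f_lt (p : Cond I Ω) {i j : I} (h : j < i) : (p.res i).f j = p.f j := if_pos h

theorem res_lt (p : Cond I Ω) (i : I) : (p.res i).lt i := by
  intro j hj
  by_contra h
  exact hj (if_neg h)

theorem res_res (p : Cond I Ω) (i j : I) : (p.res i).res j = p.res (min i j) := by
  apply Cond.ext
  funext k
  simp only [res_f]
  by_cases h1 : k < j <;> by_cases h2 : k < i <;> simp [h1, h2]

theorem res_res_le (p : Cond I Ω) {i j : I} (h : j ≤ i) : (p.res i).res j = p.res j := by
  rw [res_res, min_eq_right h]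

theorem res_res_ge (p : Cond I Ω) {i j : I} (h : i ≤ j) : (p.res i).res j = p.res i := by
  rw [res_res, min_eq_left h]

theorem f_of_lt {p : Cond I Ω} {i j : I} (h : p.lt i) (hj : i ≤ j) : p.f j = Dat.emp := by
  by_contra hne
  exact absurd (h j hne) (not_lt.2 hj)

theorem res_of_lt {p : Cond I Ω} {i : I} (h : p.lt i) : p.res i = p := by
  apply Cond.ext
  funext k
  rw [res_f]
  split
  · rfl
  · next hk => exact (f_of_lt h (not_lt.1 hk)).symm

theorem res_lt_of_lt {p : Cond I Ω} {i j : I} (h : p.lt j) : (p.res i).lt j := by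
  intro k hk
  apply h k
  intro h0
  apply hk
  rw [res_f, h0]
  simp

theorem glue_f (i : I) (q p : Cond I Ω) (j : I) :
    (glue i q p).f j = if j < i then q.f j else p.f j := rfl

theorem glue_res (i : I) {q : Cond I Ω} (hq : q.lt i) (p : Cond I Ω) :
    (glue i q p).res i = q := by
  apply Cond.ext
  funext k
  rw [res_f, glue_f]
  split
  · rfl
  · next hk => exact (f_of_lt hq (not_lt.1 hk)).symm

theorem glue_res_le (i : I) (q p : Cond I Ω) {j : I} (h : j ≤ i) :
    (glue i q p).res j = q.res j := by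
  apply Cond.ext
  funext k
  rw [res_f, res_f, glue_f]
  by_cases hk : k < j
  · rw [if_pos hk, if_pos hk, if_pos (hk.trans_le h)]
  · rw [if_neg hk, if_neg hk]

theorem put_f (p : Cond I Ω) (i : I) (x : Dat Ω) (j : I) :
    (put p i x).f j = if j = i then x else p.f j := rfl

theorem put_res (p : Cond I Ω) (i : I) (x : Dat Ω) {j : I} (h : j ≤ i) :
    (put p i x).res j = p.res j := by
  apply Cond.ext
  funext k
  rw [res_f, res_f, put_f]
  by_cases hk : k < j
  · rw [if_pos hk, if_pos hk, if_neg (hk.trans_le h).ne]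
  · rw [if_neg hk, if_neg hk]

theorem lt_empty (i : I) : (empty : Cond I Ω).lt i := fun _ h => absurd rfl h

end Cond

section Raw

variable {I : Type u} [LinearOrder I] {Ω : Type}

theorem hit_congr {i : I} {le le' : Cond I Ω → Cond I Ω → Prop}
    (h : ∀ p q : Cond I Ω, q.lt i → (le p q ↔ le' p q)) {X : Set (Cond I Ω)} {p : Cond I Ω}
    (hp : p.lt i) : hit i le X p ↔ hit i le' X p := by
  constructor
  · intro h1 q hq hqp
    obtain ⟨r, hr, hrq, a, ha, hai, hra⟩ := h1 q hq ((h _ _ hp).2 hqp)
    exact ⟨r, hr, (h _ _ hq).1 hrq, a, ha, hai, (h _ _ hai).1 hra⟩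
  · intro h1 q hq hqp
    obtain ⟨r, hr, hrq, a, ha, hai, hra⟩ := h1 q hq ((h _ _ hp).1 hqp)
    exact ⟨r, hr, (h _ _ hq).2 hrq, a, ha, hai, (h _ _ hai).2 hra⟩

variable [LinearOrder Ω] {e : Ω → ℕ → Ω → Prop} {code : I → Ω → Set (Cond I Ω)}

theorem eqR_congr {i j : I} (hji : j ≤ i) {le le' : Cond I Ω → Cond I Ω → Prop}
    (h : ∀ p q : Cond I Ω, q.lt i → (le p q ↔ le' p q)) {δ : Ω} {p : Cond I Ω} (hp : p.lt i) :
    eqR code i le j δ p ↔ eqR code i le' j δ p := by
  have hj : ∀ p q : Cond I Ω, q.lt j → (le p q ↔ le' p q) := fun p q hq =>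
    h p q (Cond.lt_mono hji hq)
  constructor
  · intro h1 γ hγ q hq hqp
    rw [← hit_congr h hq, ← hit_congr hj (Cond.res_lt _ _)]
    exact h1 γ hγ q hq ((h _ _ hp).2 hqp)
  · intro h1 γ hγ q hq hqp
    rw [hit_congr h hq, hit_congr hj (Cond.res_lt _ _)]
    exact h1 γ hγ q hq ((h _ _ hp).1 hqp)

theorem DR_congr {i : I} {le le' : Cond I Ω → Cond I Ω → Prop}
    (h : ∀ p q : Cond I Ω, q.lt i → (le p q ↔ le' p q)) {δ : Ω} {j : I} {v : Bool}
    {p : Cond I Ω} (hp : p.lt i) : DR code i le δ j v p ↔ DR code i le' δ j v p := by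
  unfold DR
  refine and_congr_right fun hji => and_congr (eqR_congr hji h hp) (and_congr ?_ ?_)
  · refine forall_congr' fun k => forall_congr' fun hk => forall_congr' fun q =>
      forall_congr' fun hq => ?_
    rw [h _ _ hp, eqR_congr (hk.le.trans hji) h hq]
  · split
    · exact hit_congr h hp
    · refine forall_congr' fun q => forall_congr' fun hq => ?_
      rw [h _ _ hp, hit_congr h hq]

theorem stepR_congr {i : I} {L L' : I → Cond I Ω → Cond I Ω → Prop}
    (h : ∀ k, k ≤ i → ∀ p q : Cond I Ω, q.lt k → (L k p q ↔ L' k p q)) {p q : Cond I Ω} :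
    stepR e code i L p q ↔ stepR e code i L' p q := by
  have hD : ∀ j ∈ {j | j ≤ i}, ∀ δ k v,
      (DR code j (L j) δ k v (p.res j) ↔ DR code j (L' j) δ k v (p.res j)) :=
    fun j hj δ k v => DR_congr (h j hj) (Cond.res_lt _ _)
  unfold stepR
  refine and_congr_right fun _ => forall_congr' fun ξ => forall_congr' fun n =>
    forall_congr' fun δ => forall_congr' fun _ => forall_congr' fun _ => forall_congr' fun _ => ?_
  constructor
  · exact Cer.mono_on {j | j ≤ i} (fun j hj δ k v hk => hk.1.trans hj)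
      (fun j hj δ k v hk => (hD j hj δ k v).1 hk) (fun _ _ _ _ _ hk => hk) le_rfl
  · exact Cer.mono_on {j | j ≤ i} (fun j hj δ k v hk => hk.1.trans hj)
      (fun j hj δ k v hk => (hD j hj δ k v).2 hk) (fun _ _ _ _ _ hk => hk) le_rfl

/-- The relation at `i` depends only on the places up to `i`. -/
theorem stepR_data {i : I} {L : I → Cond I Ω → Cond I Ω → Prop} {p p' q q' : Cond I Ω}
    (hp : ∀ k, k ≤ i → p.f k = p'.f k) (hq : q.f i = q'.f i) :
    stepR e code i L p q ↔ stepR e code i L p' q' := by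
  have hres : ∀ j, j ≤ i → p.res j = p'.res j := by
    intro j hj
    apply Cond.ext
    funext k
    rw [Cond.res_f, Cond.res_f]
    split
    · next hk => exact hp k (hk.le.trans hj)
    · rfl
  unfold stepR
  rw [hp i le_rfl, hq]
  refine and_congr_right fun _ => forall_congr' fun ξ => forall_congr' fun n =>
    forall_congr' fun δ => forall_congr' fun _ => forall_congr' fun _ => forall_congr' fun _ => ?_
  constructor
  · refine Cer.mono_on {j | j ≤ i} (fun j hj δ k v hk => hk.1.trans hj)
      (fun j hj δ k v hk => ?_) (fun k hk _ _ _ hx => ?_) le_rfl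
    · rw [← hres j hj]; exact hk
    · rw [← hp k hk]; exact hx
  · refine Cer.mono_on {j | j ≤ i} (fun j hj δ k v hk => hk.1.trans hj)
      (fun j hj δ k v hk => ?_) (fun k hk _ _ _ hx => ?_) le_rfl
    · rw [hres j hj]; exact hk
    · rw [hp k hk]; exact hx

theorem stepR_refl (i : I) (L : I → Cond I Ω → Cond I Ω → Prop) (p : Cond I Ω) :
    stepR e code i L p p :=
  ⟨Dat.Le.refl _, fun ξ n δ h1 h2 _ => absurd (h1.symm.trans h2) (by simp)⟩

theorem stepR_emp {i : I} {L : I → Cond I Ω → Cond I Ω → Prop} {p q : Cond I Ω}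
    (hq : q.f i = Dat.emp) : stepR e code i L p q := by
  refine ⟨?_, ?_⟩
  · rw [hq]; exact Dat.le_emp _
  · intro ξ n δ _ _ h
    rw [hq] at h
    exact h.elim

theorem hit_mono {i : I} {le : Cond I Ω → Cond I Ω → Prop}
    (htr : ∀ p q r, le p q → le q r → le p r) {X : Set (Cond I Ω)} {p q : Cond I Ω}
    (h : hit i le X p) (hqp : le q p) : hit i le X q :=
  fun r hr hrq => h r hr (htr _ _ _ hrq hqp)

theorem DR_mono {i : I} {le : Cond I Ω → Cond I Ω → Prop}
    (htr : ∀ p q r, le p q → le q r → le p r) {δ : Ω} {j : I} {v : Bool} {p q : Cond I Ω}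
    (h : DR code i le δ j v p) (hqp : le q p) : DR code i le δ j v q := by
  obtain ⟨h1, h2, h3, h4⟩ := h
  refine ⟨h1, fun γ hγ r hr hrq => h2 γ hγ r hr (htr _ _ _ hrq hqp),
    fun k hk r hr hrq => h3 k hk r hr (htr _ _ _ hrq hqp), ?_⟩
  by_cases hv : v = true
  · rw [if_pos hv] at h4 ⊢
    exact hit_mono htr h4 hqp
  · rw [if_neg hv] at h4 ⊢
    exact fun r hr hrq => h4 r hr (htr _ _ _ hrq hqp)

theorem stepR_trans {i : I} {L : I → Cond I Ω → Cond I Ω → Prop} {p q r : Cond I Ω}
    (htr : ∀ k, k ≤ i → ∀ p q r, L k p q → L k q r → L k p r)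
    (hC : ∀ k, k ≤ i → (p.f k).Le (q.f k))
    (hL : ∀ k, k ≤ i → L k (p.res k) (q.res k)) (h1 : stepR e code i L p q)
    (h2 : stepR e code i L q r) : stepR e code i L p r := by
  refine ⟨h1.1.trans h2.1, ?_⟩
  intro ξ n δ hp hr hF
  cases hq : (q.f i).φ ξ with
  | none => exact h1.2 ξ n δ hp hq (h2.1.F _ _ hF)
  | some n' =>
    have : n' = n := Option.some.inj ((h1.1.φ _ _ hq).symm.trans hp)
    subst this
    exact Cer.mono_on {j | j ≤ i} (fun j hj δ k v hk => hk.1.trans hj)
      (fun j hj δ k v hk => DR_mono (htr j hj) hk (hL j hj))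
      (fun k hk δ m x hx => (hC k hk).c _ _ _ hx) le_rfl (h2.2 ξ n' δ hq hr hF)

variable [WellFoundedLT I]

theorem leR_eq (i : I) (p q : Cond I Ω) :
    leR e code i p q ↔ ∀ j, j < i → stepR e code j (leR e code) p q := by
  have h1 : leR e code i p q ↔ ∀ j, ∀ hj : j < i,
      stepR e code j (fun k x y => ∀ _ : k ≤ j, leR e code k x y) p q := by
    conv_lhs => rw [leR, WellFounded.fix_eq]
    rfl
  rw [h1]
  refine forall_congr' fun j => forall_congr' fun hj => ?_
  apply stepR_congr
  intro k hk p q _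
  exact ⟨fun h => h hk, fun h _ => h⟩

theorem leR_res {i j : I} (h : j ≤ i) {p q : Cond I Ω} (hpq : leR e code i p q) :
    leR e code j (p.res j) (q.res j) := by
  rw [leR_eq] at hpq ⊢
  intro k hk
  rw [stepR_data (p' := p) (q' := q) (fun k' hk' => Cond.res_f_lt _ (hk'.trans_lt hk))
    (Cond.res_f_lt _ hk)]
  exact hpq k (hk.trans_le h)

theorem leR_trans (i : I) : ∀ p q r : Cond I Ω, leR e code i p q → leR e code i q r →
    leR e code i p r := by
  induction i using WellFoundedLT.induction with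
  | ind i ih =>
    intro p q r h1 h2
    have h1' := h1
    rw [leR_eq] at h1' h2 ⊢
    intro j hj
    refine stepR_trans (fun k hk => ih k (hk.trans_lt hj)) (fun k hk => (h1' k (hk.trans_lt hj)).1)
      (fun k hk => leR_res (hk.trans hj.le) h1) (h1' j hj) (h2 j hj)

theorem leR_refl (i : I) (p : Cond I Ω) : leR e code i p p := by
  rw [leR_eq]
  exact fun j _ => stepR_refl _ _ _

/-- The order of all conditions. -/
def leC (e : Ω → ℕ → Ω → Prop) (code : I → Ω → Set (Cond I Ω)) (p q : Cond I Ω) : Prop :=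
  ∀ i, stepR e code i (leR e code) p q

theorem leR_of_leC {p q : Cond I Ω} (h : leC e code p q) (i : I) : leR e code i p q := by
  rw [leR_eq]
  exact fun j _ => h j

theorem leC_iff_of_lt {p q : Cond I Ω} {i : I} (hq : q.lt i) :
    leR e code i p q ↔ leC e code p q := by
  constructor
  · intro h j
    rw [leR_eq] at h
    rcases lt_or_ge j i with hj | hj
    · exact h j hj
    · exact stepR_emp (Cond.f_of_lt hq hj)
  · intro h
    exact leR_of_leC h i

theorem leC_res {p q : Cond I Ω} (h : leC e code p q) (i : I) :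
    leC e code (p.res i) (q.res i) :=
  (leC_iff_of_lt (Cond.res_lt q i)).1 (leR_res le_rfl (leR_of_leC h i))

end Raw

namespace PC

variable {I : Type u} [LinearOrder I] [WellFoundedLT I] {Ω : Type} [LinearOrder Ω]
  {e : Ω → ℕ → Ω → Prop} {code : I → Ω → Set (Cond I Ω)}

instance : Preorder (PC e code) where
  le p q := leC e code p.c q.c
  le_refl p := fun i => stepR_refl _ _ _
  le_trans p q r h1 h2 := by
    intro i
    exact stepR_trans (fun k _ => leR_trans k) (fun k _ => (h1 k).1)
      (fun k _ => leR_res le_rfl (leR_of_leC h1 k)) (h1 i) (h2 i)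

theorem le_def {p q : PC e code} : p ≤ q ↔ leC e code p.c q.c := Iff.rfl

instance : OrderTop (PC e code) where
  top := Cond.empty
  le_top p := fun i => stepR_emp rfl

/-- The datum at the place `i`. -/
def f (p : PC e code) (i : I) : Dat Ω := p.c.f i

/-- The restriction to the places less than `i`. -/
def res (p : PC e code) (i : I) : PC e code := mk (p.c.res i)

/-- The condition which agrees with `q` below `i` and with `p` from `i` on. -/
def glue (i : I) (q p : PC e code) : PC e code := mk (Cond.glue i q.c p.c)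

/-- The condition `p` with the datum `x` at `i`. -/
def put (p : PC e code) (i : I) (x : Dat Ω) : PC e code := mk (Cond.put p.c i x)

/-- All places of `p` are less than `i`. -/
def lt (p : PC e code) (i : I) : Prop := p.c.lt i

theorem ext' {p q : PC e code} (h : ∀ i, p.f i = q.f i) : p = q := Cond.ext (funext h)

theorem res_f (p : PC e code) (i j : I) : (p.res i).f j = if j < i then p.f j else Dat.emp := rfl

theorem res_f_lt (p : PC e code) {i j : I} (h : j < i) : (p.res i).f j = p.f j := if_pos h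

theorem glue_f (i : I) (q p : PC e code) (j : I) :
    (glue i q p).f j = if j < i then q.f j else p.f j := rfl

theorem put_f (p : PC e code) (i : I) (x : Dat Ω) (j : I) :
    (put p i x).f j = if j = i then x else p.f j := rfl

theorem f_of_lt {p : PC e code} {i j : I} (h : p.lt i) (hj : i ≤ j) : p.f j = Dat.emp :=
  Cond.f_of_lt h hj

theorem res_lt (p : PC e code) (i : I) : (p.res i).lt i := Cond.res_lt _ _

theorem lt_mono {p : PC e code} {i j : I} (h : i ≤ j) (hp : p.lt i) : p.lt j :=
  Cond.lt_mono h hp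

theorem res_of_lt {p : PC e code} {i : I} (h : p.lt i) : p.res i = p := Cond.res_of_lt h

theorem res_res_le (p : PC e code) {i j : I} (h : j ≤ i) : (p.res i).res j = p.res j :=
  Cond.res_res_le _ h

theorem res_res_ge (p : PC e code) {i j : I} (h : i ≤ j) : (p.res i).res j = p.res i :=
  Cond.res_res_ge _ h

theorem put_res (p : PC e code) (i : I) (x : Dat Ω) {j : I} (h : j ≤ i) :
    (put p i x).res j = p.res j := Cond.put_res _ _ _ h

theorem glue_res_le (i : I) (q p : PC e code) {j : I} (h : j ≤ i) :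
    (glue i q p).res j = q.res j := Cond.glue_res_le _ _ _ h

theorem le_res (p : PC e code) (i : I) : p ≤ p.res i := by
  intro j
  rcases lt_or_ge j i with hj | hj
  · have h : stepR e code j (leR e code) p.c p.c := stepR_refl _ _ _
    exact (stepR_data (fun _ _ => rfl) (Cond.res_f_lt _ hj).symm).1 h
  · exact stepR_emp (Cond.f_of_lt (Cond.res_lt _ _) hj)

theorem res_mono {p q : PC e code} (h : p ≤ q) (i : I) : p.res i ≤ q.res i := leC_res h i

theorem res_le_of_lt {p q : PC e code} {i : I} (h : p ≤ q) (hq : q.lt i) : p.res i ≤ q := by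
  have := res_mono h i
  rwa [res_of_lt hq] at this

theorem glue_res {i : I} {q : PC e code} (hq : q.lt i) (p : PC e code) :
    (glue i q p).res i = q := Cond.glue_res i hq _

theorem glue_le_left {i : I} {q : PC e code} (hq : q.lt i) (p : PC e code) : glue i q p ≤ q := by
  have := le_res (glue i q p) i
  rwa [glue_res hq] at this

theorem glue_le_right {i : I} {q p : PC e code} (h : q ≤ p.res i) : glue i q p ≤ p := by
  intro j
  rcases lt_or_ge j i with hj | hj
  · have h1 := h j
    refine (stepR_data (fun k hk => ?_) ?_).1 h1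
    · exact (if_pos (hk.trans_lt hj)).symm
    · exact Cond.res_f_lt _ hj
  · refine ⟨?_, ?_⟩
    · have : (Cond.glue i q.c p.c).f j = p.c.f j := if_neg (not_lt.2 hj)
      change ((Cond.glue i q.c p.c).f j).Le (p.c.f j)
      rw [this]
      exact Dat.Le.refl _
    · intro ξ n δ h1 h2 _
      have : (Cond.glue i q.c p.c).f j = p.c.f j := if_neg (not_lt.2 hj)
      change ((Cond.glue i q.c p.c).f j).φ ξ = some n at h1
      rw [this, h2] at h1
      exact absurd h1 (by simp)

theorem le_data {p q : PC e code} (h : p ≤ q) (i : I) : (p.f i).Le (q.f i) := (h i).1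

end PC

end Pool.Agent.Helper69.HA
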