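import Pool.Agent.Helper69.HA.Top
import Pool.Agent.Helper83.HA.CClosed
import Pool.Agent.Helper87.HA.CloseOff
import Pool.Agent.Helper63.HA.TreeP

/-!
# Project HA: the positive side under `2 ^ ℵ₀ < 2 ^ ℵ₁`
-/

set_option autoImplicit false
set_option linter.unusedSectionVars false

namespace Pool.Agent.Helper69.HA

open Set Filter

/-- If `2 ^ ℵ₀ < 2 ^ ℵ₁` then every compact, hereditarily alpha-realcompact space is sequential. -/
theorem seq_of_har (hc : (2 : Cardinal.{0}) ^ Cardinal.aleph0 < 2 ^ Cardinal.aleph 1)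
    {X : Type} [TopologicalSpace X] [CompactSpace X] [T2Space X] (h : HerAlphaRealcompact X) :
    SequentialSpace X := by
  -- every sequence has a convergent subsequence
  have hseq : ∀ x : ℕ → X, ∃ s : ℕ → ℕ, StrictMono s ∧ ∃ y, Tendsto (x ∘ s) atTop (nhds y) := by
    intro x
    by_contra hne
    have hx : ∀ s : ℕ → ℕ, StrictMono s → ∀ y, ¬ Tendsto (x ∘ s) atTop (nhds y) :=
      fun s hs y hy => hne ⟨s, hs, y, hy⟩
    obtain ⟨F, hF, hFx⟩ := exists_tree x hx
    have hcl : ∀ s : ℕ → X, ∃ y, MapClusterPt y atTop s := by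
      intro s
      obtain ⟨y, -, hy⟩ := isCompact_univ.exists_mapClusterPt (f := atTop) (u := s) (by simp)
      exact ⟨y, hy⟩
    choose f hf using hcl
    obtain ⟨Y, hY1, hY2, hY3⟩ := exists_close_off f x
    have hYc : IsClosed Y := cclosed_of_har h fun s hs => ⟨f s, hY2 s hs, hf s⟩
    have hFY : ∀ g, F g ∈ Y := by
      intro g
      have h1 : closure (range x) ⊆ Y := closure_minimal (range_subset_iff.2 hY1) hYc
      exact h1 (hFx g)
    have h2 : Cardinal.mk ((Ordinal.omega.{0} 1).ToType → Bool) ≤ Cardinal.mk Y :=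
      Cardinal.mk_le_of_injective (f := fun g => (⟨F g, hFY g⟩ : Y)) fun g g' h =>
        hF (Subtype.ext_iff.1 h)
    have h3 : Cardinal.mk ((Ordinal.omega.{0} 1).ToType → Bool) = 2 ^ Cardinal.aleph 1 := by
      rw [← Pool.Agent.Helper52.MA.omT_card]
      simp
    rw [h3] at h2
    have h4 := h2.trans hY3
    rw [← Cardinal.two_power_aleph0] at h4
    exact absurd hc (not_lt.2 h4)
  refine ⟨fun A hA => ?_⟩
  refine cclosed_of_har h fun s hs => ?_
  obtain ⟨t, ht, y, hy⟩ := hseq s
  refine ⟨y, hA (fun n => hs (t n)) hy, ?_⟩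
  exact (hy.mapClusterPt).of_comp ht.tendsto_atTop

end Pool.Agent.Helper69.HA
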