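import Pool.Agent.Helper69.HA.Order
import Pool.Agent.Helper33.HM.Basic

/-!
# Project HA: the subalgebras, the values of the names, and the order in terms of the values
-/

set_option autoImplicit false
set_option linter.unusedSectionVars false

namespace Pool.Agent.Helper69.HA

open Set Pool.Agent.Helper33.HM

universe u

/-- The value of: `b` and `b'` are equal below `δ`. -/
def eqN {Ω : Type} [LinearOrder Ω] {B : Type u} [CompleteBooleanAlgebra B] (b b' : Ω → B)
    (δ : Ω) : B := ⨅ γ, ⨅ _ : γ < δ, iffV (b γ) (b' γ)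

variable {I : Type u} [LinearOrder I] [WellFoundedLT I] {Ω : Type} [LinearOrder Ω]
  {e : Ω → ℕ → Ω → Prop} {code : I → Ω → Set (Cond I Ω)}

/-- The elements of the algebra which depend only on the places below `i`. -/
def S (i : I) : Set (RO (PC e code)) := {U | ∀ p : PC e code, p ∈ U ↔ p.res i ∈ U}

/-- The value of `γ ∈ b_i`. -/
def bt (i : I) (γ : Ω) : RO (PC e code) := RO.gen {a : PC e code | a.c ∈ code i γ ∧ a.lt i}

/-- The value of: `j` is the index of the node `b_i ∩ δ` (the least `j` such that `b_j` and `b_i`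
are equal below `δ`), and `δ ∈ b_i` or `δ ∉ b_i` according to `v`. -/
noncomputable def Dv (i : I) (δ : Ω) (j : I) (v : Bool) : RO (PC e code) :=
  ⨆ _ : j ≤ i, eqN (bt i) (bt j) δ ⊓ (⨅ k : I, ⨅ _ : k < j, (eqN (bt i) (bt k) δ)ᶜ) ⊓
    if v = true then bt i δ else (bt i δ)ᶜ

theorem mem_S_iff {i : I} {U : RO (PC e code)} : U ∈ S i ↔ ∀ p ∈ U, p.res i ∈ U :=
  ⟨fun h p hp => (h p).1 hp, fun h p => ⟨h p, fun hp => RO.mem_lower (PC.le_res p i) hp⟩⟩

theorem mem_res_iff {i : I} {U : RO (PC e code)} (hU : U ∈ S i) {p : PC e code} :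
    p.res i ∈ U ↔ p ∈ U := (hU p).symm

theorem S_mono {i j : I} (h : i ≤ j) : (S i : Set (RO (PC e code))) ⊆ S j := by
  intro U hU
  rw [mem_S_iff]
  intro p hp
  have h1 := (hU p).1 hp
  rw [hU (p.res j), PC.res_res_le _ h]
  exact h1

theorem gen_mem_S {i : I} {X : Set (PC e code)} (hX : ∀ a ∈ X, a.lt i) : RO.gen X ∈ S i := by
  rw [mem_S_iff]
  intro p hp q hq
  have hq' : q.res i ≤ p.res i := PC.res_le_of_lt hq (PC.res_lt _ _)
  obtain ⟨r, hr, a, ha, hra⟩ := hp _ (PC.glue_le_right hq')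
  have h1 : r.res i ≤ a := PC.res_le_of_lt hra (hX a ha)
  have h2 : r.res i ≤ q.res i := by
    have := PC.res_mono hr i
    rwa [PC.glue_res (PC.res_lt _ _)] at this
  exact ⟨_, PC.glue_le_right h2, a, ha, (PC.glue_le_left (PC.res_lt _ _) q).trans h1⟩

theorem S_isSub (i : I) : IsSub (S i : Set (RO (PC e code))) := by
  refine ⟨?_, ?_⟩
  · intro U hU
    rw [mem_S_iff]
    intro p hp q hq hqU
    have hq' : q.res i ≤ p.res i := PC.res_le_of_lt hq (PC.res_lt _ _)
    refine hp _ (PC.glue_le_right hq') ?_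
    exact RO.mem_lower (PC.glue_le_left (PC.res_lt _ _) p) ((hU q).1 hqU)
  · intro t ht
    rw [mem_S_iff]
    intro p hp
    rw [RO.mem_sSup] at hp ⊢
    intro q hq
    have hq' : q.res i ≤ p.res i := PC.res_le_of_lt hq (PC.res_lt _ _)
    obtain ⟨r, hr, U, hU, hrU⟩ := hp _ (PC.glue_le_right hq')
    have h1 : r.res i ∈ U := (ht hU r).1 hrU
    have h2 : r.res i ≤ q.res i := by
      have := PC.res_mono hr i
      rwa [PC.glue_res (PC.res_lt _ _)] at this
    exact ⟨_, PC.glue_le_right h2, U, hU,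
      RO.mem_lower (PC.glue_le_left (PC.res_lt _ _) q) h1⟩

theorem bt_mem (i : I) (γ : Ω) : (bt i γ : RO (PC e code)) ∈ S i :=
  gen_mem_S fun _ ha => ha.2

theorem eqN_mem {i j : I} (h : j ≤ i) (δ : Ω) :
    (eqN (bt i) (bt j) δ : RO (PC e code)) ∈ S i :=
  (S_isSub i).iInf_mem fun γ => (S_isSub i).iInf_mem fun _ =>
    (S_isSub i).iffV_mem (bt_mem i γ) (S_mono h (bt_mem j γ))

theorem mem_iSup_prop {P : Type u} [Preorder P] {h : Prop} {U : h → RO P} {p : P} :
    p ∈ (⨆ x : h, U x) ↔ ∃ x : h, p ∈ U x := by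
  by_cases hh : h
  · rw [iSup_pos hh]
    exact ⟨fun hp => ⟨hh, hp⟩, fun ⟨_, hp⟩ => hp⟩
  · rw [iSup_neg hh]
    exact ⟨fun hp => (RO.not_mem_bot _ hp).elim, fun ⟨x, _⟩ => (hh x).elim⟩

theorem Dv_mem (i : I) (δ : Ω) (j : I) (v : Bool) : (Dv i δ j v : RO (PC e code)) ∈ S i := by
  refine (S_isSub i).iSup_mem fun h => (S_isSub i).inf_mem ((S_isSub i).inf_mem (eqN_mem h δ)
    ((S_isSub i).iInf_mem fun k => (S_isSub i).iInf_mem fun hk =>
      (S_isSub i).compl_mem _ (eqN_mem (hk.le.trans h) δ))) ?_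
  by_cases hv : v = true
  · rw [if_pos hv]; exact bt_mem i δ
  · rw [if_neg hv]; exact (S_isSub i).compl_mem _ (bt_mem i δ)

theorem mem_iffV {P : Type u} [Preorder P] {U V : RO P} {p : P} :
    p ∈ iffV U V ↔ ∀ q, q ≤ p → (q ∈ U ↔ q ∈ V) := by
  unfold iffV
  rw [RO.mem_inf, RO.mem_himp, RO.mem_himp]
  exact ⟨fun h q hq => ⟨h.1 q hq, h.2 q hq⟩, fun h => ⟨fun q hq => (h q hq).1,
    fun q hq => (h q hq).2⟩⟩

theorem mem_eqN {P : Type u} [Preorder P] {b b' : Ω → RO P} {δ : Ω} {p : P} :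
    p ∈ eqN b b' δ ↔ ∀ γ, γ < δ → ∀ q, q ≤ p → (q ∈ b γ ↔ q ∈ b' γ) := by
  unfold eqN
  simp only [RO.mem_iInf, mem_iffV]

theorem mem_Dv {i : I} {δ : Ω} {j : I} {v : Bool} {p : PC e code} :
    p ∈ Dv i δ j v ↔ j ≤ i ∧ p ∈ eqN (bt i) (bt j) δ ∧
      (∀ k, k < j → ∀ q, q ≤ p → ¬ q ∈ eqN (bt i) (bt k) δ) ∧
      if v = true then p ∈ bt i δ else ∀ q, q ≤ p → ¬ q ∈ bt i δ := by
  unfold Dv
  rw [mem_iSup_prop]
  simp only [RO.mem_inf, RO.mem_iInf, RO.mem_compl]
  constructor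
  · rintro ⟨h, ⟨h1, h2⟩, h3⟩
    refine ⟨h, h1, h2, ?_⟩
    by_cases hv : v = true
    · rw [if_pos hv] at h3 ⊢; exact h3
    · rw [if_neg hv] at h3 ⊢; exact h3
  · rintro ⟨h, h1, h2, h3⟩
    refine ⟨h, ⟨h1, h2⟩, ?_⟩
    by_cases hv : v = true
    · rw [if_pos hv] at h3 ⊢; exact h3
    · rw [if_neg hv] at h3 ⊢; exact h3

/-! ### The raw relations -/

theorem hit_iff {i : I} {X : Set (Cond I Ω)} {q : PC e code} (hq : q.lt i) :
    hit i (leC e code) X q.c ↔ q ∈ RO.gen {a : PC e code | a.c ∈ X ∧ a.lt i} := by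
  constructor
  · intro h q' hq'
    have h0 : q'.res i ≤ q := PC.res_le_of_lt hq' hq
    obtain ⟨r, hr, hrq, a, ha, hai, hra⟩ := h (q'.res i).c (PC.res_lt _ _) h0
    have h1 : PC.mk r ≤ q'.res i := hrq
    have h2 : (PC.mk (e := e) (code := code) r).lt i := hr
    have h3 : PC.mk r ≤ PC.mk (e := e) (code := code) a := hra
    exact ⟨_, PC.glue_le_right h1, PC.mk a, ⟨ha, hai⟩, (PC.glue_le_left h2 q').trans h3⟩
  · intro h q' hq' hqq
    have h1 : PC.mk q' ≤ q := hqq
    obtain ⟨r, hr, a, ⟨ha, hai⟩, hra⟩ := h (PC.mk q') h1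
    have h2 : r.res i ≤ PC.mk q' := PC.res_le_of_lt hr hq'
    have h3 : r.res i ≤ a := PC.res_le_of_lt hra hai
    exact ⟨(r.res i).c, PC.res_lt _ _, h2, a.c, ha, hai, h3⟩

theorem eqR_iff {i j : I} (hji : j ≤ i) {δ : Ω} {q : PC e code} (hq : q.lt i) :
    eqR code i (leC e code) j δ q.c ↔ q ∈ (eqN (bt i) (bt j) δ : RO (PC e code)) := by
  rw [mem_eqN]
  constructor
  · intro h γ hγ q' hq'
    have h0 : q'.res i ≤ q := PC.res_le_of_lt hq' hq
    have h1 := h γ hγ (q'.res i).c (PC.res_lt _ _) h0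
    have h2 := hit_iff (X := code i γ) (PC.res_lt q' i)
    have h3 := hit_iff (X := code j γ) (PC.res_lt (q'.res i) j)
    have h4 : (q'.res i).res j = q'.res j := PC.res_res_le _ hji
    rw [h4] at h3
    have h5 : (q'.res i).c.res j = (q'.res j).c := Cond.res_res_le _ hji
    rw [h5] at h1
    exact (mem_res_iff (bt_mem i γ)).symm.trans (h2.symm.trans
      (h1.trans (h3.trans (mem_res_iff (bt_mem j γ)))))
  · intro h γ hγ q' hq' hqq
    have h1 : PC.mk q' ≤ q := hqq
    have h2 := h γ hγ (PC.mk q') h1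
    have h3 := hit_iff (X := code i γ) (q := PC.mk (e := e) (code := code) q') hq'
    have h4 := hit_iff (X := code j γ) (PC.res_lt (PC.mk (e := e) (code := code) q') j)
    exact h3.trans (h2.trans ((mem_res_iff (bt_mem j γ)).symm.trans h4.symm))

theorem DR_iff {i : I} {δ : Ω} {j : I} {v : Bool} {p : PC e code} :
    DR code i (leR e code i) δ j v (p.res i).c ↔ p ∈ (Dv i δ j v : RO (PC e code)) := by
  rw [DR_congr (le' := leC e code) (fun p q hq => leC_iff_of_lt hq) (PC.res_lt p i),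
    ← mem_res_iff (Dv_mem i δ j v), mem_Dv]
  have key : ∀ (Q : PC e code → Prop) (_ : ∀ q : PC e code, Q q ↔ Q (q.res i)),
      (∀ q : Cond I Ω, q.lt i → leC e code q (p.res i).c → ¬ Q (PC.mk q)) ↔
        ∀ q, q ≤ p.res i → ¬ Q q := by
    intro Q hQ
    constructor
    · intro h q hq hQq
      exact h (q.res i).c (PC.res_lt _ _) (PC.res_le_of_lt hq (PC.res_lt _ _)) ((hQ q).1 hQq)
    · intro h q hq hqp
      exact h (PC.mk q) hqp
  unfold DR
  refine and_congr_right fun hji => and_congr (eqR_iff hji (PC.res_lt _ _)) (and_congr ?_ ?_)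
  · refine forall_congr' fun k => forall_congr' fun hk => ?_
    rw [← key (fun q => q ∈ (eqN (bt i) (bt k) δ : RO (PC e code)))
      (fun q => eqN_mem (hk.le.trans hji) δ q)]
    refine forall_congr' fun q => forall_congr' fun hq => forall_congr' fun _ => not_congr ?_
    exact eqR_iff (q := PC.mk (e := e) (code := code) q) (hk.le.trans hji) hq
  · by_cases hv : v = true
    · rw [if_pos hv, if_pos hv]
      exact hit_iff (PC.res_lt _ _)
    · rw [if_neg hv, if_neg hv, ← key (fun q => q ∈ (bt i δ : RO (PC e code)))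
        (fun q => bt_mem i δ q)]
      refine forall_congr' fun q => forall_congr' fun hq => forall_congr' fun _ => not_congr ?_
      exact hit_iff (q := PC.mk (e := e) (code := code) q) hq

/-- The decisions of `p` on the names. -/
def DP (p : PC e code) (j : I) (δ : Ω) (k : I) (v : Bool) : Prop := p ∈ Dv j δ k v

/-- The values of the nodes which are given by `p`. -/
def CP (p : PC e code) (k : I) (δ : Ω) (m x : ℕ) : Prop := (p.f k).c δ m = some x

/-- The certificates of `p`. -/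
def CE (p : PC e code) : I → Ω → Ω ⊕ ℕ → Bool → Prop := Cer (fun x y => x < y) e (DP p) (CP p)

/-- The order in terms of the values of the names. -/
theorem PC.le_iff {p q : PC e code} :
    p ≤ q ↔ ∀ i, (p.f i).Le (q.f i) ∧ ∀ ξ n δ, (p.f i).φ ξ = some n → (q.f i).φ ξ = none →
      (q.f i).F δ n → CE p i δ (.inl ξ) false := by
  rw [PC.le_def]
  unfold leC stepR
  refine forall_congr' fun i => and_congr Iff.rfl ?_
  refine forall_congr' fun ξ => forall_congr' fun n => forall_congr' fun δ =>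
    forall_congr' fun _ => forall_congr' fun _ => forall_congr' fun _ => ?_
  constructor
  · exact Cer.mono (fun j δ k v hk => DR_iff.1 hk) (fun _ _ _ _ hx => hx)
  · exact Cer.mono (fun j δ k v hk => DR_iff.2 hk) (fun _ _ _ _ hx => hx)

end Pool.Agent.Helper69.HA
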