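import Pool.Agent.Helper85.HA.Closed
import Pool.Agent.Helper90.HA.Har
import Pool.Agent.Helper81.HA.Seq
import Pool.Agent.Helper90.MA.OmT

/-!
# Project HA: the combinatorial sentence gives a compact, hereditarily alpha-realcompact space which
is not sequential
-/

set_option autoImplicit false
set_option linter.unusedSectionVars false

namespace Pool.Agent.Helper69.HA

open Set

/-- Every subspace of `X` is alpha-realcompact: every maximal centered family of closed subsets of a
subspace which has the countable intersection property has nonempty intersection. -/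
def HerAlphaRealcompact (X : Type) [TopologicalSpace X] : Prop :=
  ∀ (S : Set X) (F : Set (Set S)),
    (∀ C ∈ F, IsClosed C) →
    (∀ G : Finset (Set S), (↑G : Set (Set S)) ⊆ F → (⋂₀ (↑G : Set (Set S))).Nonempty) →
    (∀ H : Set (Set S), F ⊆ H → (∀ C ∈ H, IsClosed C) →
      (∀ G : Finset (Set S), (↑G : Set (Set S)) ⊆ H → (⋂₀ (↑G : Set (Set S))).Nonempty) →
        H = F) →
    (∀ G : Set (Set S), G ⊆ F → G.Countable → (⋂₀ G).Nonempty) → (⋂₀ F).Nonempty

/-- The sentence gives a counterexample. -/
theorem space_of_sent (Ω : Type) [LinearOrder Ω] [WellFoundedLT Ω]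
    (hcard : ∃ f : Ω → ℕ → Bool, Function.Injective f)
    (h : HSent Ω (fun x y => x < y) univ univ univ univ univ) :
    ∃ (X : Type) (_ : TopologicalSpace X), CompactSpace X ∧ T2Space X ∧ HerAlphaRealcompact X ∧
      ¬ SequentialSpace X := by
  obtain ⟨e, -, he, E, -, hE, hb⟩ := h
  have hcl := isClosed_spX (Ω := Ω) he (fun b δ m => hE b (mem_univ _) δ m)
  have hcomp : CompactSpace (spX (MemL (fun x y : Ω => x < y) e E)) :=
    isCompact_iff_compactSpace.1 hcl.isCompact
  refine ⟨spX (MemL (fun x y : Ω => x < y) e E), inferInstance, hcomp, inferInstance, ?_,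
    not_seq_spX hcl ?_⟩
  · refine har_spX (fun b δ => Cer.self _ _) ?_ hcl hcard ?_
    · intro b δ ξ hξ h
      have h2 : Cer (I := Unit) (fun x y : Ω => x < y) e (fun _ δ _ v => (v = true ↔ δ ∈ b))
          (fun _ δ m x => E δ {γ | γ ∈ b ∧ γ < δ} m x) () δ (.inl ξ) false := .above _ _ _ hξ
      have h3 := Cer.unique (fun x : Ω => lt_irrefl x) (fun x y h => not_lt.2 h.le) ?_ ?_ h h2
      · exact absurd h3 (by simp)
      · intro j δ k v k' v' h h'
        refine ⟨rfl, ?_⟩
        rw [Bool.eq_iff_iff]
        exact h.trans h'.symm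
      · intro k δ m x y h h'
        exact (hE b (mem_univ _) δ m).unique h h'
    · intro b
      obtain ⟨⟨φ, -, h1, h2⟩, -⟩ := hb b (mem_univ _)
      choose f hf1 hf2 using h1
      refine ⟨f, fun δ n => (h2 δ n).subset ?_⟩
      rintro γ ⟨h3, h4⟩
      refine ⟨?_, h4⟩
      rw [← h3]
      exact hf1 γ
  · intro b A hA
    exact (hb b (mem_univ _)).2 A (mem_univ _) hA

/-- `ω₁` injects into the reals. -/
theorem omega1_real : ∃ f : (Ordinal.omega.{0} 1).ToType → ℕ → Bool, Function.Injective f := by
  have h1 : Cardinal.mk (Ordinal.omega.{0} 1).ToType ≤ Cardinal.mk (ℕ → Bool) := by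
    rw [Pool.Agent.Helper52.MA.omT_card]
    simpa using Cardinal.aleph_one_le_continuum
  obtain ⟨f⟩ := h1
  exact ⟨f, f.injective⟩

end Pool.Agent.Helper69.HA
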