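import Pool.Agent.Helper69.HA.Sent

/-!
# Project HA: the compact space
-/

set_option autoImplicit false

namespace Pool.Agent.Helper69.HA

open Set

/-- The least element on which `b` and `b'` differ is `γ`. -/
def IsDel {Ω : Type} [LinearOrder Ω] (b b' : Set Ω) (γ : Ω) : Prop :=
  (∀ ξ, ξ < γ → (ξ ∈ b ↔ ξ ∈ b')) ∧ ¬ (γ ∈ b ↔ γ ∈ b')

/-- The ambient compact space. -/
abbrev Amb (Ω : Type) : Type := (Ω × Set Ω → Bool) × OnePoint ℕ

section

variable {Ω : Type} [LinearOrder Ω] (mem : Set Ω → Ω → Ω ⊕ ℕ → Prop)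

open Classical in
/-- The isolated point given by the natural number `l`. -/
noncomputable def ptN (l : ℕ) : Amb Ω :=
  (fun c => decide (mem c.2 c.1 (.inr l)) != decide (c.1 ∈ c.2), (l : OnePoint ℕ))

open Classical in
/-- The point given by the branch `b'`. -/
noncomputable def ptB (b' : Set Ω) : Amb Ω :=
  (fun c => decide (∃ γ, IsDel c.2 b' γ ∧ mem c.2 c.1 (.inl γ)) != decide (c.1 ∈ c.2),
    OnePoint.infty)

/-- The compact space. -/
def spX : Set (Amb Ω) := range (ptN mem) ∪ range (ptB mem)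

end

end Pool.Agent.Helper69.HA
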